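import Mathlib

set_option autoImplicit false

open scoped commutatorElement

namespace Pool.Agent.Helper11.PlaneEuler

noncomputable section

/-- Ordered pairs of distinct points of the plane. -/
abbrev Conf : Type := {x : ℂ × ℂ // x.1 ≠ x.2}

/-- The action of a homeomorphism of the plane on pairs of distinct points. -/
def onConf (f : ℂ ≃ₜ ℂ) (x : Conf) : Conf :=
  ⟨(f x.1.1, f x.1.2), fun h => x.2 (f.injective h)⟩

theorem continuous_onConf (f : ℂ ≃ₜ ℂ) : Continuous (onConf f) := by
  unfold onConf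
  have := f.continuous
  fun_prop

/-- A homeomorphism of the plane with a continuous choice, over all pairs `p ≠ q`, of an
argument of the quotient `(f q - f p) / (q - p)`. -/
structure PlaneLift where
  /-- the homeomorphism -/
  homeo : ℂ ≃ₜ ℂ
  /-- the continuous choice of the argument -/
  angle : C(Conf, ℝ)
  spec : ∀ x : Conf, (homeo x.1.2 - homeo x.1.1) / (x.1.2 - x.1.1) =
    (‖(homeo x.1.2 - homeo x.1.1) / (x.1.2 - x.1.1)‖ : ℂ) * Complex.exp (angle x * Complex.I)

theorem PlaneLift.ext' {F G : PlaneLift} (h1 : F.homeo = G.homeo)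
    (h2 : ∀ x, F.angle x = G.angle x) : F = G := by
  cases F; cases G
  simp only at h1 h2
  subst h1
  have : ∀ (a b : C(Conf, ℝ)), (∀ x, a x = b x) → a = b := fun a b h => ContinuousMap.ext h
  have h3 := this _ _ h2
  subst h3
  rfl

theorem sub_ne (x : Conf) : x.1.2 - x.1.1 ≠ 0 := sub_ne_zero.mpr (fun h => x.2 h.symm)

theorem sub_ne' (f : ℂ ≃ₜ ℂ) (x : Conf) : f x.1.2 - f x.1.1 ≠ 0 := sub_ne (onConf f x)

/-- composition -/
def PlaneLift.mul (F G : PlaneLift) : PlaneLift where
  homeo := F.homeo * G.homeo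
  angle := ⟨fun x => F.angle (onConf G.homeo x) + G.angle x, by
    have h1 := F.angle.continuous.comp (continuous_onConf G.homeo)
    exact h1.add G.angle.continuous⟩
  spec := by
    intro x
    have h1 := F.spec (onConf G.homeo x)
    have h2 := G.spec x
    have h3 : ((F.homeo * G.homeo) x.1.2 - (F.homeo * G.homeo) x.1.1) / (x.1.2 - x.1.1) =
        ((F.homeo (onConf G.homeo x).1.2 - F.homeo (onConf G.homeo x).1.1) /
          ((onConf G.homeo x).1.2 - (onConf G.homeo x).1.1)) *
        ((G.homeo x.1.2 - G.homeo x.1.1) / (x.1.2 - x.1.1)) := by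
      have e1 := sub_ne x
      have e2 := sub_ne (onConf G.homeo x)
      have e3 : (onConf G.homeo x).1.2 - (onConf G.homeo x).1.1 = G.homeo x.1.2 - G.homeo x.1.1 :=
        rfl
      rw [← e3]
      field_simp
      rfl
    rw [h3, norm_mul]
    simp only [ContinuousMap.coe_mk]
    push_cast
    rw [add_mul, Complex.exp_add]
    nth_rewrite 1 [h1]
    nth_rewrite 1 [h2]
    ring

/-- identity -/
def PlaneLift.one : PlaneLift where
  homeo := 1
  angle := ContinuousMap.const _ 0
  spec := by
    intro x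
    have e1 := sub_ne x
    have : (x.1.2 - x.1.1) / (x.1.2 - x.1.1) = 1 := div_self e1
    simp [this]

/-- inverse -/
def PlaneLift.inv (F : PlaneLift) : PlaneLift where
  homeo := F.homeo⁻¹
  angle := ⟨fun x => - F.angle (onConf F.homeo⁻¹ x), by
    have h1 := F.angle.continuous.comp (continuous_onConf F.homeo⁻¹)
    exact h1.neg⟩
  spec := by
    intro x
    have h1 := F.spec (onConf F.homeo⁻¹ x)
    have e1 := sub_ne x
    have e2 := sub_ne (onConf F.homeo⁻¹ x)
    have e3 : F.homeo (onConf F.homeo⁻¹ x).1.2 = x.1.2 := F.homeo.apply_symm_apply _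
    have e4 : F.homeo (onConf F.homeo⁻¹ x).1.1 = x.1.1 := F.homeo.apply_symm_apply _
    rw [e3, e4] at h1
    have e5 : ∀ w : ℂ, (F.homeo⁻¹ x.1.2 - F.homeo⁻¹ x.1.1) / w =
      ((onConf F.homeo⁻¹ x).1.2 - (onConf F.homeo⁻¹ x).1.1) / w := fun w => rfl
    rw [e5]
    have e6 : ((onConf F.homeo⁻¹ x).1.2 - (onConf F.homeo⁻¹ x).1.1) / (x.1.2 - x.1.1) =
      ((x.1.2 - x.1.1) / ((onConf F.homeo⁻¹ x).1.2 - (onConf F.homeo⁻¹ x).1.1))⁻¹ := by
      rw [inv_div]
    rw [e6]
    nth_rewrite 1 [h1]
    simp only [ContinuousMap.coe_mk]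
    rw [mul_inv, norm_inv, ← Complex.exp_neg]
    push_cast
    rw [neg_mul]

instance : Mul PlaneLift := ⟨PlaneLift.mul⟩
instance : One PlaneLift := ⟨PlaneLift.one⟩
instance : Inv PlaneLift := ⟨PlaneLift.inv⟩

theorem mul_homeo (F G : PlaneLift) : (F * G).homeo = F.homeo * G.homeo := rfl
theorem one_homeo : (1 : PlaneLift).homeo = 1 := rfl
theorem inv_homeo (F : PlaneLift) : (F⁻¹).homeo = F.homeo⁻¹ := rfl
theorem mul_angle (F G : PlaneLift) (x : Conf) :
    (F * G).angle x = F.angle (onConf G.homeo x) + G.angle x := rfl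
theorem one_angle (x : Conf) : (1 : PlaneLift).angle x = 0 := rfl
theorem inv_angle (F : PlaneLift) (x : Conf) :
    (F⁻¹).angle x = - F.angle (onConf F.homeo⁻¹ x) := rfl

instance : Group PlaneLift :=
  Group.ofLeftAxioms
    (by
      intro F G K
      refine PlaneLift.ext' (mul_assoc _ _ _) (fun x => ?_)
      rw [mul_angle, mul_angle, mul_angle, mul_angle, add_assoc]
      rfl)
    (by
      intro F
      refine PlaneLift.ext' (one_mul _) (fun x => ?_)
      rw [mul_angle, one_angle, zero_add])
    (by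
      intro F
      refine PlaneLift.ext' (inv_mul_cancel _) (fun x => ?_)
      rw [mul_angle, inv_angle, one_angle]
      have : onConf F.homeo⁻¹ (onConf F.homeo x) = x := by
        apply Subtype.ext
        apply Prod.ext
        · exact F.homeo.symm_apply_apply _
        · exact F.homeo.symm_apply_apply _
      rw [this]
      ring)

/-- The central element: the identity with constant argument `2 π n`; it is the lift of the
identity obtained by rotating the plane `n` times. -/
def central (n : ℤ) : PlaneLift where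
  homeo := 1
  angle := ContinuousMap.const _ (2 * Real.pi * n)
  spec := by
    intro x
    have e1 := sub_ne x
    have h : (x.1.2 - x.1.1) / (x.1.2 - x.1.1) = 1 := div_self e1
    have h2 : Complex.exp (((2 * Real.pi * n : ℝ) : ℂ) * Complex.I) = 1 := by
      rw [Complex.exp_eq_one_iff]
      exact ⟨n, by push_cast; ring⟩
    have h3 : ((1 : ℂ ≃ₜ ℂ) x.1.2 - (1 : ℂ ≃ₜ ℂ) x.1.1) / (x.1.2 - x.1.1) = 1 := h
    rw [h3]
    simp only [ContinuousMap.const_apply, norm_one]
    rw [h2]
    simp

/-- The relator `[a_1, b_1] ... [a_g, b_g]` of the fundamental group of the closed oriented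
surface of genus `g`; `a_i` is `Sum.inl i` and `b_i` is `Sum.inr i`. -/
def surfaceRelator (g : ℕ) : FreeGroup (Fin g ⊕ Fin g) :=
  (List.ofFn fun i : Fin g => ⁅(FreeGroup.of (Sum.inl i) : FreeGroup (Fin g ⊕ Fin g)),
    FreeGroup.of (Sum.inr i)⁆).prod

/-- The fundamental group of the closed oriented surface of genus `g`. -/
abbrev SurfaceGroup (g : ℕ) : Type := PresentedGroup {surfaceRelator g}

/-- An action of the surface group on the plane by orientation-preserving real-analytic
diffeomorphisms: every group element acts by a real-analytic homeomorphism (so does its inverse)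
with positive Jacobian determinant everywhere. -/
def IsAnalyticAction {g : ℕ} (ρ : SurfaceGroup g →* (ℂ ≃ₜ ℂ)) : Prop :=
  ∀ γ : SurfaceGroup g, AnalyticOnNhd ℝ (ρ γ : ℂ → ℂ) Set.univ ∧
    ∀ z : ℂ, 0 < (fderiv ℝ (ρ γ : ℂ → ℂ) z).det

/-- The Euler number of the action `ρ` is `n`: the homeomorphisms `ρ a_i`, `ρ b_i` have lifts
`A_i`, `B_i` to `PlaneLift`, and for every choice of lifts the product of commutators
`[A_1, B_1] ... [A_g, B_g]` is the central element `central n`. -/
def HasEulerNumber {g : ℕ} (ρ : SurfaceGroup g →* (ℂ ≃ₜ ℂ)) (n : ℤ) : Prop :=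
  (∃ A B : Fin g → PlaneLift,
    (∀ i, (A i).homeo = ρ (PresentedGroup.of (Sum.inl i))) ∧
    (∀ i, (B i).homeo = ρ (PresentedGroup.of (Sum.inr i)))) ∧
  ∀ A B : Fin g → PlaneLift,
    (∀ i, (A i).homeo = ρ (PresentedGroup.of (Sum.inl i))) →
    (∀ i, (B i).homeo = ρ (PresentedGroup.of (Sum.inr i))) →
    (List.ofFn fun i => ⁅A i, B i⁆).prod = central n

end

end Pool.Agent.Helper11.PlaneEuler
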