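import Pool.Agent.Helper11.PlaneEuler.Defs

set_option autoImplicit false

open Filter Topology

namespace Pool.Agent.Helper11.PlaneEuler

noncomputable section

instance : PreconnectedSpace Conf := by
  have h1 : IsPreconnected ({0}ᶜ : Set ℂ) :=
    (isConnected_compl_singleton_of_one_lt_rank
      (by rw [Complex.rank_real_complex]; exact Cardinal.one_lt_two) 0).isPreconnected
  have h2 : IsPreconnected ((Set.univ : Set ℂ) ×ˢ ({0}ᶜ : Set ℂ)) := isPreconnected_univ.prod h1
  have h3 := h2.image (fun x : ℂ × ℂ => (x.1, x.1 + x.2)) (by fun_prop)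
  have h4 : (fun x : ℂ × ℂ => (x.1, x.1 + x.2)) '' ((Set.univ : Set ℂ) ×ˢ ({0}ᶜ : Set ℂ)) =
      {x : ℂ × ℂ | x.1 ≠ x.2} := by
    ext ⟨a, b⟩
    simp only [Set.mem_image, Set.mem_prod, Set.mem_univ, true_and, Set.mem_compl_iff,
      Set.mem_singleton_iff, Prod.mk.injEq, Prod.exists, Set.mem_ofPred_eq]
    constructor
    · rintro ⟨p, q, hq, rfl, rfl⟩ h
      exact hq (by simpa using h)
    · intro h
      exact ⟨a, b - a, fun h2 => h (sub_eq_zero.mp h2).symm, rfl, by ring⟩
  rw [h4] at h3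
  exact Subtype.preconnectedSpace h3

theorem circle_exp_eq_iff (a b : ℝ) : Circle.exp a = Circle.exp b ↔
    Complex.exp (a * Complex.I) = Complex.exp (b * Complex.I) := by
  constructor
  · intro h
    have := congrArg (fun z : Circle => (z : ℂ)) h
    simpa using this
  · intro h
    apply Circle.ext
    simpa using h

/-- two lifts of the same homeomorphism differ by a central element -/
theorem lift_unique (F G : PlaneLift) (h : F.homeo = G.homeo) : ∃ k : ℤ, F = central k * G := by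
  have h1 : ∀ x, Complex.exp (F.angle x * Complex.I) = Complex.exp (G.angle x * Complex.I) := by
    intro x
    have e1 := F.spec x
    have e2 := G.spec x
    rw [h] at e1
    rw [e2] at e1
    have e3 : ((‖(G.homeo x.1.2 - G.homeo x.1.1) / (x.1.2 - x.1.1)‖ : ℝ) : ℂ) ≠ 0 := by
      have : ‖(G.homeo x.1.2 - G.homeo x.1.1) / (x.1.2 - x.1.1)‖ ≠ 0 :=
        norm_ne_zero_iff.mpr (div_ne_zero (sub_ne' _ x) (sub_ne x))
      exact_mod_cast this
    rw [← e2] at e1
    nth_rewrite 1 [e2] at e1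
    exact (mul_left_cancel₀ e3 e1).symm
  have h2 : ∀ x, Circle.exp (F.angle x - G.angle x) = 1 := by
    intro x
    rw [Circle.exp_sub, (circle_exp_eq_iff _ _).mpr (h1 x), div_self']
  have h3 : ∀ x y, F.angle x - G.angle x = F.angle y - G.angle y := by
    intro x y
    exact Circle.isCoveringMap_exp.const_of_comp (g := fun x => F.angle x - G.angle x)
      (F.angle.continuous.sub G.angle.continuous) (fun a b => by rw [h2, h2]) x y
  have x0 : Conf := ⟨(0, 1), by simp⟩
  have h4 := h2 x0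
  rw [Circle.exp_eq_one] at h4
  obtain ⟨k, hk⟩ := h4
  refine ⟨k, PlaneLift.ext' ?_ (fun x => ?_)⟩
  · rw [mul_homeo, h]; rfl
  · rw [mul_angle]
    have : (central k).angle (onConf G.homeo x) = 2 * Real.pi * k := rfl
    rw [this]
    have h5 := h3 x x0
    linarith

theorem central_comm (k : ℤ) (F : PlaneLift) : central k * F = F * central k := by
  refine PlaneLift.ext' ?_ (fun x => ?_)
  · rw [mul_homeo, mul_homeo]
    show 1 * F.homeo = F.homeo * 1
    rw [one_mul, mul_one]
  · rw [mul_angle, mul_angle, add_comm]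
    rfl

open unitInterval

/-- the quotient for the pair contracted by the factor `t` towards `c` -/
def rr (f : ℂ → ℂ) (c : ℂ) (t : ℝ) (x : Conf) : ℂ :=
  if t = 0 then 1 else (f (c + t * (x.1.2 - c)) - f (c + t * (x.1.1 - c))) /
    (t * (x.1.2 - x.1.1))

theorem rr_ne (f : ℂ ≃ₜ ℂ) (c : ℂ) (t : ℝ) (x : Conf) : rr f c t x ≠ 0 := by
  unfold rr
  split_ifs with h
  · exact one_ne_zero
  · have ht : (t : ℂ) ≠ 0 := by exact_mod_cast h
    apply div_ne_zero
    · rw [sub_ne_zero]
      intro h2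
      have h3 := f.injective h2
      have h4 : (t : ℂ) * (x.1.2 - c) = t * (x.1.1 - c) := add_left_cancel h3
      have h5 := mul_left_cancel₀ ht h4
      exact x.2 (sub_left_injective h5).symm
    · exact mul_ne_zero ht (sub_ne x)

theorem rr_continuous (f : ℂ ≃ₜ ℂ) (c : ℂ)
    (hf : HasStrictFDerivAt (f : ℂ → ℂ) (ContinuousLinearMap.id ℝ ℂ) c) :
    Continuous (fun y : ℝ × Conf => rr f c y.1 y.2) := by
  rw [continuous_iff_continuousAt]
  rintro ⟨t, x⟩
  by_cases ht : t = 0
  · subst ht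
    unfold ContinuousAt
    have h0 : rr f c 0 x = 1 := by simp [rr]
    simp only
    rw [h0, Metric.tendsto_nhds]
    intro ε hε
    have h1 := hf.isLittleO.def (half_pos hε)
    have h2 : Tendsto (fun y : ℝ × Conf => (c + (y.1 : ℂ) * (y.2.1.2 - c), c + (y.1 : ℂ) * (y.2.1.1 - c)))
        (𝓝 ((0 : ℝ), x)) (𝓝 (c, c)) := by
      have hc : Continuous (fun y : ℝ × Conf =>
          (c + (y.1 : ℂ) * (y.2.1.2 - c), c + (y.1 : ℂ) * (y.2.1.1 - c))) := by fun_prop
      have := hc.tendsto ((0 : ℝ), x)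
      simpa using this
    filter_upwards [h2.eventually h1] with y hy
    unfold rr
    split_ifs with h3
    · simpa using hε
    · have hy1 : ((y.1 : ℝ) : ℂ) ≠ 0 := by exact_mod_cast h3
      have hd : (y.1 : ℂ) * (y.2.1.2 - y.2.1.1) ≠ 0 := mul_ne_zero hy1 (sub_ne y.2)
      rw [dist_eq_norm, div_sub_one hd, norm_div, div_lt_iff₀ (norm_pos_iff.mpr hd)]
      have e1 : (c + (y.1 : ℂ) * (y.2.1.2 - c)) - (c + (y.1 : ℂ) * (y.2.1.1 - c)) =
          (y.1 : ℂ) * (y.2.1.2 - y.2.1.1) := by ring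
      simp only [ContinuousLinearMap.coe_id', id_eq] at hy
      rw [e1] at hy
      have h4 : 0 < ‖(y.1 : ℂ) * (y.2.1.2 - y.2.1.1)‖ := norm_pos_iff.mpr hd
      calc _ ≤ ε / 2 * ‖(y.1 : ℂ) * (y.2.1.2 - y.2.1.1)‖ := hy
        _ < ε * ‖(y.1 : ℂ) * (y.2.1.2 - y.2.1.1)‖ := by
          apply mul_lt_mul_of_pos_right _ h4
          linarith
  · have h1 : ∀ᶠ y : ℝ × Conf in 𝓝 (t, x), y.1 ≠ 0 :=
      continuous_fst.continuousAt.eventually_ne ht
    have ht' : (t : ℂ) ≠ 0 := by exact_mod_cast ht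
    have h2 : ContinuousAt (fun y : ℝ × Conf =>
        (f (c + y.1 * (y.2.1.2 - c)) - f (c + y.1 * (y.2.1.1 - c))) /
        (y.1 * (y.2.1.2 - y.2.1.1))) (t, x) := by
      have hfc := f.continuous
      apply ContinuousAt.div
      · apply Continuous.continuousAt
        fun_prop
      · apply Continuous.continuousAt
        fun_prop
      · exact mul_ne_zero ht' (sub_ne x)
    refine h2.congr ?_
    filter_upwards [h1] with y hy
    simp [rr, hy]

/-- normalised version, valued in the circle -/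
def rc (f : ℂ ≃ₜ ℂ) (c : ℂ) (t : ℝ) (x : Conf) : Circle :=
  ⟨rr f c t x / ‖rr f c t x‖, by
    apply mem_sphere_zero_iff_norm.mpr
    rw [norm_div, Complex.norm_real, norm_norm,
      div_self (norm_ne_zero_iff.mpr (rr_ne f c t x))]⟩

theorem rc_continuous (f : ℂ ≃ₜ ℂ) (c : ℂ)
    (hf : HasStrictFDerivAt (f : ℂ → ℂ) (ContinuousLinearMap.id ℝ ℂ) c) :
    Continuous (fun y : I × Conf => rc f c y.1 y.2) := by
  have h1 : Continuous (fun y : I × Conf => rr f c y.1 y.2) :=
    (rr_continuous f c hf).comp (by fun_prop : Continuous (fun y : I × Conf => ((y.1 : ℝ), y.2)))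
  refine Continuous.subtype_mk ?_ _
  apply h1.div
  · fun_prop
  · intro y
    have : ‖rr f c y.1 y.2‖ ≠ 0 := norm_ne_zero_iff.mpr (rr_ne f c _ _)
    exact_mod_cast this

/-- Lift obtained by contracting towards a fixed point with derivative the identity. -/
theorem exists_lift (f : ℂ ≃ₜ ℂ) (c : ℂ)
    (hf : HasStrictFDerivAt (f : ℂ → ℂ) (ContinuousLinearMap.id ℝ ℂ) c) :
    ∃ F : PlaneLift, F.homeo = f ∧ ∀ (x : Conf) (γ : ℝ → ℝ), ContinuousOn γ (Set.Icc 0 1) →
      γ 0 = 0 → (∀ t ∈ Set.Icc (0 : ℝ) 1, rr f c t x = ‖rr f c t x‖ * Complex.exp (γ t * Complex.I)) →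
      F.angle x = γ 1 := by
  let Hm : C(I × Conf, Circle) := ⟨fun y => rc f c y.1 y.2, rc_continuous f c hf⟩
  have H0 : ∀ a : Conf, Hm (0, a) = Circle.exp ((ContinuousMap.const Conf (0 : ℝ)) a) := by
    intro a
    apply Circle.ext
    show rr f c 0 a / ‖rr f c 0 a‖ = _
    simp [rr]
  let L := Circle.isCoveringMap_exp.liftHomotopy Hm (ContinuousMap.const Conf (0 : ℝ)) H0
  have hL : ∀ t a, Circle.exp (L (t, a)) = rc f c t a := fun t a =>
    congrFun (Circle.isCoveringMap_exp.liftHomotopy_lifts Hm _ H0) (t, a)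
  have hL0 : ∀ a, L (0, a) = 0 := fun a => Circle.isCoveringMap_exp.liftHomotopy_zero Hm _ H0 a
  have hexp : ∀ (t : I) (a : Conf), rr f c t a = ‖rr f c t a‖ * Complex.exp (L (t, a) * Complex.I) := by
    intro t a
    have h1 := congrArg (fun z : Circle => (z : ℂ)) (hL t a)
    simp only [Circle.coe_exp] at h1
    rw [h1]
    show _ = _ * (rr f c t a / ‖rr f c t a‖)
    have : ((‖rr f c t a‖ : ℝ) : ℂ) ≠ 0 := by
      have : ‖rr f c t a‖ ≠ 0 := norm_ne_zero_iff.mpr (rr_ne f c _ _)
      exact_mod_cast this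
    field_simp
  refine ⟨⟨f, ⟨fun x => L (1, x), L.continuous.comp (by fun_prop)⟩, ?_⟩, rfl, ?_⟩
  · intro x
    have h1 := hexp 1 x
    have h2 : rr f c ((1 : I) : ℝ) x = (f x.1.2 - f x.1.1) / (x.1.2 - x.1.1) := by
      simp [rr]
    rw [h2] at h1
    exact h1
  · intro x γ hγ hγ0 hγe
    let g1 : I → ℝ := fun t => L (t, x)
    let g2 : I → ℝ := fun t => γ t
    have hg1 : Continuous g1 := L.continuous.comp (by fun_prop)
    have hg2 : Continuous g2 := by
      have := hγ.comp_continuous (f := fun t : I => (t : ℝ)) continuous_subtype_val (fun t => t.2)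
      exact this
    have he : Circle.exp ∘ g1 = Circle.exp ∘ g2 := by
      funext t
      simp only [Function.comp_apply]
      rw [circle_exp_eq_iff]
      have h1 := hexp t x
      have h2 := hγe t t.2
      rw [h2] at h1
      have : ((‖rr f c t x‖ : ℝ) : ℂ) ≠ 0 := by
        have : ‖rr f c t x‖ ≠ 0 := norm_ne_zero_iff.mpr (rr_ne f c _ _)
        exact_mod_cast this
      rw [← h2] at h1
      nth_rewrite 1 [h2] at h1
      exact (mul_left_cancel₀ this h1).symm
    have h := Circle.isCoveringMap_exp.eq_of_comp_eq hg1 hg2 he 0 (by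
      show L (0, x) = γ ((0 : I) : ℝ)
      rw [hL0]
      simpa using hγ0.symm)
    have h2 := congrFun h 1
    show L (1, x) = γ 1
    simpa [g1, g2] using h2

/-- lift of a map fixing `c`, near `c` -/
theorem lift_near (f : ℂ ≃ₜ ℂ) (c : ℂ)
    (hf : HasStrictFDerivAt (f : ℂ → ℂ) (ContinuousLinearMap.id ℝ ℂ) c) :
    ∃ F : PlaneLift, F.homeo = f ∧ ∀ ε > 0, ∃ δ > 0, ∀ (q : ℂ) (hq : c ≠ q), ‖q - c‖ < δ →
      |F.angle ⟨(c, q), hq⟩| < ε := by
  obtain ⟨F, hF, hang⟩ := exists_lift f c hf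
  refine ⟨F, hF, ?_⟩
  intro ε hε
  -- radius on which the quotient is close to one
  have harg : ContinuousAt Complex.arg 1 := Complex.continuousAt_arg (by simp)
  rw [Metric.continuousAt_iff] at harg
  obtain ⟨η, hη, harg⟩ := harg ε hε
  have hη' : 0 < min η (1 / 2) := lt_min hη (by norm_num)
  have h1 := hf.hasFDerivAt.isLittleO.def (half_pos hη')
  rw [Metric.eventually_nhds_iff] at h1
  obtain ⟨δ, hδ, h1⟩ := h1
  refine ⟨δ, hδ, fun q hq hqd => ?_⟩
  set x : Conf := ⟨(c, q), hq⟩ with hx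
  have hqc : q - c ≠ 0 := sub_ne_zero.mpr (fun h => hq h.symm)
  have hr : ∀ t ∈ Set.Icc (0 : ℝ) 1, ‖rr f c t x - 1‖ < min η (1 / 2) := by
    intro t ht
    unfold rr
    split_ifs with h3
    · simpa using hη
    · have ht1 : (t : ℂ) ≠ 0 := by exact_mod_cast h3
      have hd : (t : ℂ) * (q - c) ≠ 0 := mul_ne_zero ht1 hqc
      have h4 := h1 (y := c + t * (q - c)) (by
        rw [dist_eq_norm, add_sub_cancel_left, norm_mul, Complex.norm_real, Real.norm_eq_abs,
          abs_of_nonneg ht.1]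
        have := norm_nonneg (q - c)
        nlinarith [ht.2])
      simp only [ContinuousLinearMap.coe_id', id_eq, add_sub_cancel_left] at h4
      simp only [hx, sub_self, mul_zero, add_zero]
      rw [div_sub_one hd, norm_div, div_lt_iff₀ (norm_pos_iff.mpr hd)]
      have h5 : 0 < ‖(t : ℂ) * (q - c)‖ := norm_pos_iff.mpr hd
      calc _ ≤ min η (1 / 2) / 2 * ‖(t : ℂ) * (q - c)‖ := h4
        _ < min η (1 / 2) * ‖(t : ℂ) * (q - c)‖ := by
          apply mul_lt_mul_of_pos_right _ h5
          linarith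
  have hslit : ∀ t ∈ Set.Icc (0 : ℝ) 1, rr f c t x ∈ Complex.slitPlane := by
    intro t ht
    left
    have h2 := (hr t ht).trans_le (min_le_right _ _)
    have h3 : |(rr f c t x - 1).re| ≤ ‖rr f c t x - 1‖ := Complex.abs_re_le_norm _
    rw [Complex.sub_re, Complex.one_re] at h3
    have h4 := (abs_lt.mp (h3.trans_lt h2)).1
    linarith
  have hang' := hang x (fun t => Complex.arg (rr f c t x)) (by
      intro t ht
      have h2 : ContinuousAt (fun t : ℝ => rr f c t x) t := by
        have := (rr_continuous f c hf).comp (by fun_prop : Continuous (fun t : ℝ => (t, x)))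
        exact this.continuousAt
      exact (ContinuousAt.comp (g := Complex.arg) (f := fun t : ℝ => rr f c t x) (x := t)
        (Complex.continuousAt_arg (hslit t ht)) h2).continuousWithinAt) (by
      simp [rr]) (by
      intro t ht
      exact (Complex.norm_mul_exp_arg_mul_I _).symm)
  rw [hang']
  have h6 := harg (x := rr f c 1 x) (by
    rw [dist_eq_norm]
    exact (hr 1 (by simp)).trans_le (min_le_left _ _))
  rw [Complex.arg_one, Real.dist_eq, sub_zero] at h6
  exact h6

end

end Pool.Agent.Helper11.PlaneEuler
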