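import Pool.Agent.Helper11.PlaneEuler.LinB
import Pool.Agent.Helper11.PlaneEuler.Lift

set_option autoImplicit false

open Filter Topology unitInterval

namespace Pool.Agent.Helper11.PlaneEuler

open Pool.Agent.Helper11.PlaneEuler.Lin
open scoped commutatorElement

noncomputable section

/-- the dilation has the constant argument zero -/
def dilLift (c : ℂ) (r : ℝ) (hr : 0 < r) : PlaneLift where
  homeo := dil c r hr.ne'
  angle := ContinuousMap.const _ 0
  spec := by
    intro x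
    have e1 := sub_ne x
    have h : (dil c r hr.ne' x.1.2 - dil c r hr.ne' x.1.1) / (x.1.2 - x.1.1) = (r : ℂ) := by
      rw [dil_apply, dil_apply]
      field_simp
      ring
    rw [h, Complex.norm_real, Real.norm_eq_abs, abs_of_pos hr]
    simp

theorem dilLift_homeo (c : ℂ) (r : ℝ) (hr : 0 < r) : (dilLift c r hr).homeo = dil c r hr.ne' := rfl

theorem dilLift_angle (c : ℂ) (r : ℝ) (hr : 0 < r) (x : Conf) : (dilLift c r hr).angle x = 0 := rfl

theorem dilLift_inv_angle (c : ℂ) (r : ℝ) (hr : 0 < r) (x : Conf) :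
    ((dilLift c r hr)⁻¹).angle x = 0 := by
  rw [inv_angle, dilLift_angle, neg_zero]

theorem onConf_fix (f : ℂ ≃ₜ ℂ) (c q : ℂ) (hc : f c = c) (hq : c ≠ q) (hq' : c ≠ f q) :
    onConf f ⟨(c, q), hq⟩ = ⟨(c, f q), hq'⟩ := by
  apply Subtype.ext
  apply Prod.ext
  · exact hc
  · rfl

theorem ne_of_fix (f : ℂ ≃ₜ ℂ) (c q : ℂ) (hc : f c = c) (hq : c ≠ q) : c ≠ f q := by
  intro h
  rw [← hc] at h
  exact hq (f.injective (by rw [hc] at h ⊢; exact h))

theorem twist_strict (φ : C(ℝ, ℝ)) (h0 : φ 0 = 0)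
    (hE : AnalyticAt ℝ (fun z : ℂ => Complex.exp (Complex.I * (φ (Complex.normSq z) : ℂ))) 0) :
    HasStrictFDerivAt (twist φ : ℂ → ℂ) (ContinuousLinearMap.id ℝ ℂ) 0 := by
  have h1 := (hasStrictFDerivAt_id (𝕜 := ℝ) (0 : ℂ)).mul' hE.hasStrictFDerivAt
  refine HasStrictFDerivAt.congr_fderiv h1 ?_
  simp [h0]

/-- lift of a twist with zero profile at the centre -/
theorem twist_lift (φ : C(ℝ, ℝ)) (h0 : φ 0 = 0)
    (hs : HasStrictFDerivAt (twist φ : ℂ → ℂ) (ContinuousLinearMap.id ℝ ℂ) 0) :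
    ∃ F : PlaneLift, F.homeo = twist φ ∧ ∀ (q : ℂ) (hq : (0 : ℂ) ≠ q),
      F.angle ⟨(0, q), hq⟩ = φ (Complex.normSq q) := by
  obtain ⟨F, hF, hang⟩ := exists_lift (twist φ) 0 hs
  refine ⟨F, hF, fun q hq => ?_⟩
  have h := hang ⟨(0, q), hq⟩ (fun t => φ (t ^ 2 * Complex.normSq q)) (by
    have := φ.continuous
    fun_prop) (by simp [h0]) (by
    intro t ht
    unfold rr
    split_ifs with h3
    · subst h3
      simp [h0]
    · have ht1 : (t : ℂ) ≠ 0 := by exact_mod_cast h3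
      have hq0 : q ≠ 0 := fun h => hq h.symm
      have e1 : ((twist φ) (0 + t * (q - 0)) - (twist φ) (0 + t * (0 - 0))) / (t * (q - 0)) =
          Complex.exp (Complex.I * (φ (t ^ 2 * Complex.normSq q) : ℂ)) := by
        rw [twist_apply, twist_apply]
        have e2 : Complex.normSq (0 + t * (q - 0)) = t ^ 2 * Complex.normSq q := by
          rw [zero_add, sub_zero, map_mul, Complex.normSq_ofReal]; ring
        rw [e2]
        simp only [zero_add, sub_zero, mul_zero, zero_mul]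
        field_simp
      simp only
      rw [e1]
      have e3 : ‖Complex.exp (Complex.I * (φ (t ^ 2 * Complex.normSq q) : ℂ))‖ = 1 := by
        rw [mul_comm]; exact Complex.norm_exp_ofReal_mul_I _
      rw [e3, mul_comm Complex.I]
      simp)
  rw [h]
  simp

section construction

variable (m : ℤ)

/-- profile of the first twist -/
def psi : C(ℝ, ℝ) :=
  ⟨fun s => 2 * Real.pi * m * (8 / 3 * s - 16 / 15 * s ^ 2), by fun_prop⟩

theorem psi_apply (s : ℝ) : psi m s = 2 * Real.pi * m * (8 / 3 * s - 16 / 15 * s ^ 2) := rfl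

theorem psi_zero : psi m 0 = 0 := by rw [psi_apply]; ring

def psiC (s : ℂ) : ℂ := 2 * Real.pi * m * (8 / 3 * s - 16 / 15 * s ^ 2)

theorem psiC_analytic (z : ℂ) : AnalyticAt ℝ (psiC m) z := by
  unfold psiC
  exact analyticAt_const.mul ((analyticAt_const.mul analyticAt_id).sub
    (analyticAt_const.mul (analyticAt_id.pow 2)))

theorem psi_psiC (s : ℝ) : ((psi m s : ℝ) : ℂ) = psiC m s := by
  rw [psi_apply, psiC]; push_cast; ring

theorem psi_analytic : BiAnalytic (twist (psi m)) :=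
  twist_analytic (psi m) (psiC m) (psiC_analytic m) (psi_psiC m)

theorem psi_strict : HasStrictFDerivAt (twist (psi m) : ℂ → ℂ) (ContinuousLinearMap.id ℝ ℂ) 0 := by
  apply twist_strict (psi m) (psi_zero m)
  have h1 : (fun z : ℂ => Complex.exp (Complex.I * (psi m (Complex.normSq z) : ℂ))) =
      fun z : ℂ => Complex.exp (Complex.I * psiC m (Complex.normSq z)) := by
    funext z; rw [psi_psiC]
  rw [h1]
  refine (cexp_analytic _).comp ?_
  exact analyticAt_const.mul ((psiC_analytic m _).comp (normSq_analytic 0))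

/-- the strength of the twist in the linearisation -/
def kap : ℝ := -(2 * Real.pi * m)

theorem psi_phi (s : ℝ) : psi m s - psi m (s / 4) = phiB (kap m) s + 2 * Real.pi * m := by
  rw [psi_apply, psi_apply]
  simp only [phiB, kap, ContinuousMap.coe_mk]
  ring

theorem normSq_twist (φ : C(ℝ, ℝ)) (z : ℂ) : Complex.normSq (twist φ z) = Complex.normSq z := by
  rw [Complex.normSq_eq_norm_sq, norm_twist, ← Complex.normSq_eq_norm_sq]

theorem twist_inv (φ : C(ℝ, ℝ)) (z : ℂ) :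
    (twist φ)⁻¹ z = z * Complex.exp (Complex.I * (-(φ (Complex.normSq z)) : ℂ)) := rfl

theorem normSq_twist_inv (φ : C(ℝ, ℝ)) (z : ℂ) :
    Complex.normSq ((twist φ)⁻¹ z) = Complex.normSq z := by
  have h := normSq_twist φ ((twist φ)⁻¹ z)
  have h2 : twist φ ((twist φ)⁻¹ z) = z := (twist φ).apply_symm_apply z
  rw [h2] at h
  exact h.symm

/-- the dilation by two at the origin -/
def D2 : ℂ ≃ₜ ℂ := dil 0 2 two_ne_zero

theorem D2_apply (z : ℂ) : D2 z = 2 * z := by
  unfold D2; rw [dil_apply]; push_cast; ring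

theorem D2_inv (z : ℂ) : D2⁻¹ z = z / 2 := by
  have : D2⁻¹ z = 0 + (((2 : ℝ) : ℂ))⁻¹ * (z - 0) := rfl
  rw [this]; push_cast; ring

/-- first commutator -/
theorem first_commutator : ⁅twist (psi m), D2⁆ = twist (phiB (kap m)) := by
  ext z
  rw [commutatorElement_def]
  have e0 : (twist (psi m) * D2 * (twist (psi m))⁻¹ * D2⁻¹) z =
      twist (psi m) (D2 ((twist (psi m))⁻¹ (D2⁻¹ z))) := rfl
  have e1 : Complex.normSq (D2 ((twist (psi m))⁻¹ (D2⁻¹ z))) = Complex.normSq z := by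
    rw [D2_apply, map_mul, normSq_twist_inv, D2_inv, Complex.normSq_div]
    simp [Complex.normSq]
    ring
  have e2 : Complex.normSq (z / 2) = Complex.normSq z / 4 := by
    rw [Complex.normSq_div]
    simp [Complex.normSq]
    ring
  rw [e0, twist_apply, e1, D2_apply, twist_inv, D2_inv, e2, twist_apply]
  have e3 : (2 : ℂ) * (z / 2 * Complex.exp (Complex.I * (-(psi m (Complex.normSq z / 4)) : ℂ))) *
      Complex.exp (Complex.I * (psi m (Complex.normSq z) : ℂ)) =
      z * (Complex.exp (Complex.I * (-(psi m (Complex.normSq z / 4)) : ℂ)) *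
      Complex.exp (Complex.I * (psi m (Complex.normSq z) : ℂ))) := by ring
  rw [e3, ← Complex.exp_add]
  have e4 : Complex.I * (-(psi m (Complex.normSq z / 4)) : ℂ) +
      Complex.I * (psi m (Complex.normSq z) : ℂ) =
      Complex.I * (phiB (kap m) (Complex.normSq z) : ℂ) + m * (2 * Real.pi * Complex.I) := by
    have h := congrArg (fun t : ℝ => Complex.I * (t : ℂ)) (psi_phi m (Complex.normSq z))
    push_cast at h
    linear_combination h
  rw [e4, Complex.exp_add, Complex.exp_int_mul_two_pi_mul_I, mul_one]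

/-- first lifted commutator at pairs with first point the origin -/
theorem first_angle_zero (T : PlaneLift) (hT : T.homeo = twist (psi m))
    (hTa : ∀ (q : ℂ) (hq : (0 : ℂ) ≠ q), T.angle ⟨(0, q), hq⟩ = psi m (Complex.normSq q))
    (q : ℂ) (hq : (0 : ℂ) ≠ q) :
    (⁅T, dilLift 0 2 two_pos⁆).angle ⟨(0, q), hq⟩ =
      psi m (Complex.normSq q) - psi m (Complex.normSq q / 4) := by
  rw [commutatorElement_def, mul_angle, mul_angle, mul_angle, dilLift_inv_angle, dilLift_angle,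
    inv_angle, add_zero, add_zero]
  have hD : (dilLift 0 2 two_pos)⁻¹.homeo = D2⁻¹ := rfl
  have hD' : (dilLift 0 2 two_pos).homeo = D2 := rfl
  have hTi : (T⁻¹).homeo = (twist (psi m))⁻¹ := by rw [inv_homeo, hT]
  have f1 : D2⁻¹ (0 : ℂ) = 0 := by rw [D2_inv, zero_div]
  have f2 : (twist (psi m))⁻¹ (0 : ℂ) = 0 := by rw [twist_inv, zero_mul]
  have f3 : D2 (0 : ℂ) = 0 := by rw [D2_apply, mul_zero]
  have g1 := ne_of_fix D2⁻¹ 0 q f1 hq
  have g2 := ne_of_fix (twist (psi m))⁻¹ 0 _ f2 g1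
  have g3 := ne_of_fix D2 0 _ f3 g2
  have e1 : onConf (dilLift 0 2 two_pos)⁻¹.homeo ⟨(0, q), hq⟩ = ⟨(0, D2⁻¹ q), g1⟩ := by
    rw [hD]; exact onConf_fix D2⁻¹ 0 q f1 hq g1
  have e2 : onConf T.homeo⁻¹ ⟨(0, D2⁻¹ q), g1⟩ = ⟨(0, (twist (psi m))⁻¹ (D2⁻¹ q)), g2⟩ := by
    rw [hT]; exact onConf_fix (twist (psi m))⁻¹ 0 _ f2 g1 g2
  have e3 : onConf (T⁻¹).homeo ⟨(0, D2⁻¹ q), g1⟩ = ⟨(0, (twist (psi m))⁻¹ (D2⁻¹ q)), g2⟩ := by
    rw [inv_homeo]; exact e2
  have e4 : onConf (dilLift 0 2 two_pos).homeo ⟨(0, (twist (psi m))⁻¹ (D2⁻¹ q)), g2⟩ =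
      ⟨(0, D2 ((twist (psi m))⁻¹ (D2⁻¹ q))), g3⟩ := by
    rw [hD']; exact onConf_fix D2 0 _ f3 g2 g3
  rw [e1, e2, e3, e4, hTa, hTa]
  have n1 : Complex.normSq (D2⁻¹ q) = Complex.normSq q / 4 := by
    rw [D2_inv, Complex.normSq_div]
    simp [Complex.normSq]
    ring
  have n2 : Complex.normSq (D2 ((twist (psi m))⁻¹ (D2⁻¹ q))) = Complex.normSq q := by
    rw [D2_apply, map_mul, normSq_twist_inv, n1]
    simp [Complex.normSq]
    ring
  rw [normSq_twist_inv, n1, n2]
  ring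

theorem B_unit (q : ℂ) (hq : ‖q‖ = 1) : twist (phiB (kap m)) q = q := by
  rw [twist_apply]
  have : Complex.normSq q = 1 := by rw [Complex.normSq_eq_norm_sq, hq]; norm_num
  rw [this]
  simp [phiB]

theorem slit (w : ℂ) (h1 : ‖w‖ ≤ 1) (h2 : w ≠ 1) : 1 - w ∈ Complex.slitPlane := by
  left
  rw [Complex.sub_re, Complex.one_re]
  have h3 : w.re ≤ ‖w‖ := Complex.re_le_norm w
  by_contra h4
  have h5 : w.re = 1 := by linarith
  have h6 : w.im = 0 := by
    have h7 : ‖w‖ ^ 2 = w.re ^ 2 + w.im ^ 2 := by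
      rw [← Complex.normSq_eq_norm_sq, Complex.normSq_apply]; ring
    have h8 : ‖w‖ ^ 2 ≤ 1 := by
      have := norm_nonneg w
      nlinarith
    rw [h5] at h7
    nlinarith [sq_nonneg w.im]
  exact h2 (Complex.ext h5 h6)

/-- first lifted commutator at pairs (1, q) on the unit circle -/
theorem first_angle_one (T : PlaneLift) (hT : T.homeo = twist (psi m))
    (hTa : ∀ (q : ℂ) (hq : (0 : ℂ) ≠ q), T.angle ⟨(0, q), hq⟩ = psi m (Complex.normSq q))
    (q : ℂ) (hq1 : ‖q‖ = 1) (hq : (1 : ℂ) ≠ q) :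
    (⁅T, dilLift 0 2 two_pos⁆).angle ⟨(1, q), hq⟩ = 2 * Real.pi * m := by
  set X := ⁅T, dilLift 0 2 two_pos⁆ with hX
  have hq0 : q ≠ 0 := by
    intro h; rw [h, norm_zero] at hq1; exact zero_ne_one hq1
  have hXh : X.homeo = twist (phiB (kap m)) := by
    have : X.homeo = ⁅T.homeo, D2⁆ := rfl
    rw [this, hT, first_commutator]
  have hne : ∀ t : I, ((t : ℝ) : ℂ) ≠ q := by
    intro t h
    have h1 : ‖((t : ℝ) : ℂ)‖ = 1 := by rw [h, hq1]
    rw [Complex.norm_real, Real.norm_eq_abs, abs_of_nonneg t.2.1] at h1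
    rw [h1] at h
    exact hq (by simpa using h)
  let g1 : I → ℝ := fun t => X.angle ⟨(((t : ℝ) : ℂ), q), hne t⟩
  let B : ℂ → ℂ := twist (phiB (kap m))
  have hBn : ∀ z, ‖B z‖ = ‖z‖ := norm_twist _
  have hBc : Continuous B := (twist (phiB (kap m))).continuous
  let g2 : I → ℝ := fun t => 2 * Real.pi * m + Complex.arg (1 - B (t : ℝ) / q) -
    Complex.arg (1 - ((t : ℝ) : ℂ) / q)
  have s1 : ∀ t : I, 1 - B (t : ℝ) / q ∈ Complex.slitPlane := by
    intro t
    apply slit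
    · rw [norm_div, hBn, hq1, Complex.norm_real, Real.norm_eq_abs, abs_of_nonneg t.2.1, div_one]
      exact t.2.2
    · intro h
      rw [div_eq_one_iff_eq hq0] at h
      have h2 : B ((t : ℝ) : ℂ) = B q := by rw [h]; exact (B_unit m q hq1).symm
      exact hne t ((twist (phiB (kap m))).injective h2)
  have s2 : ∀ t : I, 1 - ((t : ℝ) : ℂ) / q ∈ Complex.slitPlane := by
    intro t
    apply slit
    · rw [norm_div, hq1, Complex.norm_real, Real.norm_eq_abs, abs_of_nonneg t.2.1, div_one]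
      exact t.2.2
    · intro h
      rw [div_eq_one_iff_eq hq0] at h
      exact hne t h
  have c1 : Continuous g1 := by
    apply X.angle.continuous.comp
    refine Continuous.subtype_mk ?_ _
    fun_prop
  have c2 : Continuous g2 := by
    rw [continuous_iff_continuousAt]
    intro t
    refine (continuousAt_const.add ?_).sub ?_
    · exact ContinuousAt.comp (g := Complex.arg) (f := fun t : I => 1 - B (t : ℝ) / q)
        (Complex.continuousAt_arg (s1 t)) (Continuous.continuousAt (by fun_prop))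
    · exact ContinuousAt.comp (g := Complex.arg) (f := fun t : I => 1 - ((t : ℝ) : ℂ) / q)
        (Complex.continuousAt_arg (s2 t)) (Continuous.continuousAt (by fun_prop))
  have he : Circle.exp ∘ g1 = Circle.exp ∘ g2 := by
    funext t
    simp only [Function.comp_apply]
    rw [circle_exp_eq_iff]
    have h1 := X.spec ⟨(((t : ℝ) : ℂ), q), hne t⟩
    rw [hXh] at h1
    simp only at h1
    have hBq : twist (phiB (kap m)) q = q := B_unit m q hq1
    rw [hBq] at h1
    set a : ℂ := 1 - B (t : ℝ) / q with ha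
    set b : ℂ := 1 - ((t : ℝ) : ℂ) / q with hb
    have ha0 : a ≠ 0 := Complex.slitPlane_ne_zero (s1 t)
    have hb0 : b ≠ 0 := Complex.slitPlane_ne_zero (s2 t)
    have h2 : (q - twist (phiB (kap m)) ((t : ℝ) : ℂ)) / (q - ((t : ℝ) : ℂ)) = a / b := by
      have e1 : q - twist (phiB (kap m)) ((t : ℝ) : ℂ) = q * a := by
        rw [ha]; field_simp; rfl
      have e2 : q - ((t : ℝ) : ℂ) = q * b := by
        rw [hb]; field_simp
      rw [e1, e2, mul_div_mul_left _ _ hq0]
    rw [h2] at h1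
    have h3 : a / b = (‖a / b‖ : ℂ) * Complex.exp (g2 t * Complex.I) := by
      have k1 := Complex.norm_mul_exp_arg_mul_I a
      have k2 := Complex.norm_mul_exp_arg_mul_I b
      have k3 : Complex.exp (g2 t * Complex.I) =
          Complex.exp (a.arg * Complex.I) / Complex.exp (b.arg * Complex.I) := by
        rw [← Complex.exp_sub]
        have : ((g2 t : ℝ) : ℂ) * Complex.I =
            (a.arg * Complex.I - b.arg * Complex.I) + m * (2 * Real.pi * Complex.I) := by
          simp only [g2]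
          push_cast
          ring
        rw [this, Complex.exp_add, Complex.exp_int_mul_two_pi_mul_I, mul_one]
      rw [k3, norm_div]
      push_cast
      rw [div_mul_div_comm, k1, k2]
    have h4 : ((‖a / b‖ : ℝ) : ℂ) ≠ 0 := by
      have : ‖a / b‖ ≠ 0 := norm_ne_zero_iff.mpr (div_ne_zero ha0 hb0)
      exact_mod_cast this
    exact mul_left_cancel₀ h4 (h1.symm.trans h3)
  have h0 : g1 0 = g2 0 := by
    have e1 : g1 0 = X.angle ⟨(0, q), fun h => hq0 h.symm⟩ := by
      simp [g1]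
    have e2 : g2 0 = 2 * Real.pi * m := by
      have : B ((0 : ℝ) : ℂ) = 0 := by
        show twist (phiB (kap m)) _ = 0
        rw [twist_apply]; simp
      simp only [g2]
      rw [show (((0 : I) : ℝ)) = (0 : ℝ) from rfl, this]
      simp
    rw [e1, e2, first_angle_zero m T hT hTa]
    have : Complex.normSq q = 1 := by rw [Complex.normSq_eq_norm_sq, hq1]; norm_num
    rw [this, psi_phi]
    simp [phiB]
  have h := congrFun (Circle.isCoveringMap_exp.eq_of_comp_eq c1 c2 he 0 h0) 1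
  have e1 : g1 1 = X.angle ⟨(1, q), hq⟩ := by
    simp [g1]
  have e2 : g2 1 = 2 * Real.pi * m := by
    have : B ((1 : ℝ) : ℂ) = 1 := by
      show twist (phiB (kap m)) _ = 1
      rw [Complex.ofReal_one]
      exact B_unit m 1 norm_one
    simp only [g2]
    rw [show (((1 : I) : ℝ)) = (1 : ℝ) from rfl, this]
    simp
  rw [← e1, h, e2]

section second

variable (κ M : ℝ) (hM : 1 < M) (h1 : 4 ≤ M ^ 3) (h2 : 2 * (1 + 18 * |κ|) ≤ M ^ 3)
  (hM0 : 0 < M ^ 3)

/-- second commutator -/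
theorem second_commutator :
    ⁅(bb κ M hM h1 h2)⁻¹, dil 1 (M ^ 3) hM0.ne'⁆ = (twist (phiB κ))⁻¹ := by
  have h := key_relation κ M hM h1 h2 hM0.ne'
  rw [commutatorElement_def, inv_inv]
  have h3 : twist (phiB κ) = dil 1 (M ^ 3) hM0.ne' * (bb κ M hM h1 h2)⁻¹ *
      (dil 1 (M ^ 3) hM0.ne')⁻¹ * bb κ M hM h1 h2 := by
    have h4 := congrArg (fun x => dil 1 (M ^ 3) hM0.ne' * ((bb κ M hM h1 h2)⁻¹ * x)) h
    simp only [inv_mul_cancel_left, mul_inv_cancel_left] at h4
    rw [h4]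
    simp only [mul_assoc]
  rw [h3]
  simp only [mul_inv_rev, inv_inv, mul_assoc]

end second

/-- the lifted product of two commutators is the central element `m` -/
theorem product_eq_central (M : ℝ) (hM : 1 < M) (h1 : 4 ≤ M ^ 3)
    (h2 : 2 * (1 + 18 * |kap m|) ≤ M ^ 3) (hM0 : 0 < M ^ 3)
    (T : PlaneLift) (hT : T.homeo = twist (psi m))
    (hTa : ∀ (q : ℂ) (hq : (0 : ℂ) ≠ q), T.angle ⟨(0, q), hq⟩ = psi m (Complex.normSq q))
    (b : PlaneLift) (hb : b.homeo = bb (kap m) M hM h1 h2)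
    (hba : ∀ ε > 0, ∃ δ > 0, ∀ (q : ℂ) (hq : (1 : ℂ) ≠ q), ‖q - 1‖ < δ →
      |b.angle ⟨(1, q), hq⟩| < ε) :
    ⁅T, dilLift 0 2 two_pos⁆ * ⁅b⁻¹, dilLift 1 (M ^ 3) hM0⁆ = central m := by
  set B := twist (phiB (kap m)) with hB
  set a := dilLift 1 (M ^ 3) hM0 with ha
  have hX : (⁅T, dilLift 0 2 two_pos⁆).homeo = B := by
    have : (⁅T, dilLift 0 2 two_pos⁆).homeo = ⁅T.homeo, D2⁆ := rfl
    rw [this, hT, first_commutator]
  have hY : (⁅b⁻¹, a⁆).homeo = B⁻¹ := by
    have : (⁅b⁻¹, a⁆).homeo = ⁅b.homeo⁻¹, dil 1 (M ^ 3) hM0.ne'⁆ := rfl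
    rw [this, hb, second_commutator (hM0 := hM0)]
  obtain ⟨k, hk⟩ := lift_unique (⁅T, dilLift 0 2 two_pos⁆ * ⁅b⁻¹, a⁆) 1 (by
    rw [mul_homeo, hX, hY, mul_inv_cancel]; rfl)
  rw [mul_one] at hk
  rw [hk]
  congr 1
  -- choose a point close to 1 on the unit circle
  obtain ⟨δ, hδ, hsmall⟩ := hba 1 one_pos
  set θ : ℝ := min (δ / 2) 1 with hθ
  have hθ0 : 0 < θ := lt_min (by linarith) one_pos
  have hθ1 : θ ≤ 1 := min_le_right _ _
  have hθδ : θ < δ := by
    have : θ ≤ δ / 2 := min_le_left _ _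
    linarith
  set q : ℂ := Complex.exp (θ * Complex.I) with hq
  have hq1 : ‖q‖ = 1 := Complex.norm_exp_ofReal_mul_I _
  have hqd : ‖q - 1‖ < δ := by
    have := norm_exp_sub_one_le θ
    rw [mul_comm Complex.I, ← hq, abs_of_pos hθ0] at this
    linarith
  have hqne : (1 : ℂ) ≠ q := by
    intro h
    rw [hq, eq_comm, Complex.exp_eq_one_iff] at h
    obtain ⟨n, hn⟩ := h
    have h3 : (θ : ℂ) = n * (2 * Real.pi) := by
      have hI : (Complex.I : ℂ) ≠ 0 := Complex.I_ne_zero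
      have : (θ : ℂ) * Complex.I = (n * (2 * Real.pi)) * Complex.I := by rw [hn]; ring
      exact mul_right_cancel₀ hI this
    have h4 : θ = n * (2 * Real.pi) := by exact_mod_cast h3
    have hpi := Real.pi_gt_three
    rcases lt_trichotomy n 0 with hn' | hn' | hn'
    · have : (n : ℝ) < 0 := by exact_mod_cast hn'
      nlinarith
    · rw [hn'] at h4
      simp at h4
      linarith
    · have : (1 : ℝ) ≤ n := by exact_mod_cast hn'
      nlinarith
  have hBq : B⁻¹ q = q := by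
    have h3 : B q = q := B_unit m q hq1
    have h4 : B⁻¹ (B q) = q := B.symm_apply_apply q
    rw [h3] at h4
    exact h4
  have hB1 : B⁻¹ 1 = 1 := by
    have h3 : B 1 = 1 := B_unit m 1 norm_one
    have h4 : B⁻¹ (B 1) = 1 := B.symm_apply_apply 1
    rw [h3] at h4
    exact h4
  have hang : (⁅T, dilLift 0 2 two_pos⁆ * ⁅b⁻¹, a⁆).angle ⟨(1, q), hqne⟩ =
      2 * Real.pi * m + (⁅b⁻¹, a⁆).angle ⟨(1, q), hqne⟩ := by
    rw [mul_angle]
    have e1 : onConf (⁅b⁻¹, a⁆).homeo ⟨(1, q), hqne⟩ = ⟨(1, q), hqne⟩ := by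
      rw [hY]
      apply Subtype.ext
      apply Prod.ext
      · exact hB1
      · exact hBq
    rw [e1, first_angle_one m T hT hTa q hq1 hqne]
  have hYa : |(⁅b⁻¹, a⁆).angle ⟨(1, q), hqne⟩| < 2 := by
    have hbi : ⁅b⁻¹, a⁆ = b⁻¹ * (a * (b * a⁻¹)) := by
      rw [commutatorElement_def, inv_inv]; simp only [mul_assoc]
    have fa : (a⁻¹).homeo 1 = 1 := by
      have : (a⁻¹).homeo 1 = 1 + (((M ^ 3 : ℝ) : ℂ))⁻¹ * (1 - 1) := rfl
      rw [this]; ring
    have g1 : (1 : ℂ) ≠ (a⁻¹).homeo q := ne_of_fix _ 1 q fa hqne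
    have e0 : (⁅b⁻¹, a⁆).angle ⟨(1, q), hqne⟩ =
        - b.angle ⟨(1, q), hqne⟩ + b.angle ⟨(1, (a⁻¹).homeo q), g1⟩ := by
      rw [hbi, mul_angle, inv_angle, mul_angle, mul_angle]
      have e1 : onConf b.homeo⁻¹ (onConf (a * (b * a⁻¹)).homeo ⟨(1, q), hqne⟩) =
          ⟨(1, q), hqne⟩ := by
        have e2 : onConf b.homeo⁻¹ (onConf (a * (b * a⁻¹)).homeo ⟨(1, q), hqne⟩) =
            onConf (⁅b⁻¹, a⁆).homeo ⟨(1, q), hqne⟩ := by
          rw [hbi]; rfl
        rw [e2, hY]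
        apply Subtype.ext
        apply Prod.ext
        · exact hB1
        · exact hBq
      have e3 : onConf (a⁻¹).homeo ⟨(1, q), hqne⟩ = ⟨(1, (a⁻¹).homeo q), g1⟩ :=
        onConf_fix _ 1 q fa hqne g1
      have za : ∀ x, a.angle x = 0 := fun x => rfl
      have zi : ∀ x, (a⁻¹).angle x = 0 := fun x => dilLift_inv_angle 1 (M ^ 3) hM0 x
      rw [e1, e3, za, zi]
      ring
    rw [e0]
    have hd2 : ‖(a⁻¹).homeo q - 1‖ < δ := by
      have : (a⁻¹).homeo q = 1 + (((M ^ 3 : ℝ) : ℂ))⁻¹ * (q - 1) := rfl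
      rw [this, add_sub_cancel_left, norm_mul, norm_inv, Complex.norm_real, Real.norm_eq_abs,
        abs_of_pos hM0]
      have h5 : (M ^ 3)⁻¹ ≤ 1 := inv_le_one_of_one_le₀ (by linarith)
      have h6 := norm_nonneg (q - 1)
      nlinarith
    have h3 := hsmall q hqne hqd
    have h4 := hsmall _ g1 hd2
    rw [abs_lt] at h3 h4 ⊢
    constructor <;> linarith
  rw [hk] at hang
  have hc : (central k).angle ⟨(1, q), hqne⟩ = 2 * Real.pi * k := rfl
  rw [hc] at hang
  have h5 : |2 * Real.pi * ((k : ℝ) - m)| < 2 := by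
    have : 2 * Real.pi * ((k : ℝ) - m) = (⁅b⁻¹, a⁆).angle ⟨(1, q), hqne⟩ := by linarith
    rw [this]
    exact hYa
  have hpi := Real.pi_gt_three
  rw [abs_mul, abs_of_pos (by positivity)] at h5
  have h6 : |(k : ℝ) - m| < 1 := by
    by_contra h7
    push Not at h7
    nlinarith
  have h7 : |k - m| < 1 := by exact_mod_cast h6
  have h8 : k - m = 0 := Int.abs_lt_one_iff.mp h7
  linarith

end construction

end

end Pool.Agent.Helper11.PlaneEuler
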