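import Mathlib

set_option autoImplicit false

open Filter Topology

namespace Pool.Agent.Helper11.PlaneEuler.Lin

noncomputable section

/-- coefficients of (exp y - 1) / y -/
def cE (n : ℕ) : ℝ := ((n + 1).factorial : ℝ)⁻¹

section banach
variable (𝔸 : Type) [NormedRing 𝔸] [NormedAlgebra ℝ 𝔸] [CompleteSpace 𝔸]

omit [CompleteSpace 𝔸] in
theorem radius_cE : (FormalMultilinearSeries.ofScalars 𝔸 cE).radius = ⊤ := by
  apply FormalMultilinearSeries.ofScalars_radius_eq_top_of_tendsto
  · filter_upwards with n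
    unfold cE
    positivity
  · have h : (fun n : ℕ => ‖cE n.succ‖ / ‖cE n‖) = fun n : ℕ => 1 / ((n : ℝ) + 2) := by
      funext n
      unfold cE
      rw [norm_inv, norm_inv, Real.norm_natCast, Real.norm_natCast]
      rw [Nat.factorial_succ (n.succ)]
      push_cast
      have : ((n + 1).factorial : ℝ) ≠ 0 := by positivity
      field_simp
      ring
    rw [h]
    exact tendsto_const_div_atTop_nhds_zero_nat 1 |>.comp (tendsto_add_atTop_nat 2) |>.congr
      (fun n => by simp)

/-- the function (exp y - 1) / y -/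
def EE (y : 𝔸) : 𝔸 := FormalMultilinearSeries.ofScalarsSum cE y

theorem EE_analytic (y : 𝔸) : AnalyticAt ℝ (EE 𝔸) y := by
  have h : HasFPowerSeriesOnBall (EE 𝔸) (FormalMultilinearSeries.ofScalars 𝔸 cE) 0 ⊤ := by
    have := (FormalMultilinearSeries.ofScalars 𝔸 cE).hasFPowerSeriesOnBall
      (by rw [radius_cE]; exact ENNReal.zero_lt_top)
    rw [radius_cE] at this
    exact this
  exact h.analyticAt_of_mem (by simp)

end banach

theorem EE_summable {𝔸 : Type} [NormedRing 𝔸] [NormedAlgebra ℝ 𝔸] [CompleteSpace 𝔸] (y : 𝔸) :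
    Summable (fun n => cE n • y ^ n) := by
  have h := (FormalMultilinearSeries.ofScalars 𝔸 cE).summable (x := y)
    (by rw [radius_cE]; simp)
  refine h.congr (fun n => ?_)
  rw [FormalMultilinearSeries.ofScalars_apply_eq]

theorem EE_mul (y : ℂ) : y * EE ℂ y = Complex.exp y - 1 := by
  unfold EE
  rw [FormalMultilinearSeries.ofScalars_sum_eq, ← tsum_mul_left]
  have h1 : HasSum (fun n : ℕ => ((n.factorial : ℂ))⁻¹ * y ^ n) (Complex.exp y) := by
    have := NormedSpace.exp_series_hasSum_exp' (𝕂 := ℂ) y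
    rw [← Complex.exp_eq_exp_ℂ] at this
    simpa using this
  have h2 := (hasSum_nat_add_iff' 1).mpr h1
  simp only [Finset.range_one, Finset.sum_singleton, Nat.factorial_zero, Nat.cast_one, inv_one,
    pow_zero, mul_one] at h2
  rw [← h2.tsum_eq]
  congr 1
  funext n
  unfold cE
  rw [Complex.real_smul]
  push_cast
  ring


/-- bounded sequences -/
abbrev A : Type := BoundedContinuousFunction ℕ ℂ

theorem EE_apply (y : A) (k : ℕ) : (EE A y) k = EE ℂ (y k) := by
  unfold EE
  rw [FormalMultilinearSeries.ofScalars_sum_eq, FormalMultilinearSeries.ofScalars_sum_eq]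
  have h := (BoundedContinuousFunction.evalCLM ℝ k : A →L[ℝ] ℂ).map_tsum (EE_summable y)
  simp only [BoundedContinuousFunction.evalCLM_apply] at h
  rw [h]
  refine tsum_congr (fun n => ?_)
  simp

/-- weights -/
def W (M : ℝ) (hM : 1 < M) : A :=
  BoundedContinuousFunction.ofNormedAddCommGroupDiscrete
    (fun k => (((M⁻¹ ^ 2) ^ k : ℝ) : ℂ)) 1 (by
      intro k
      rw [Complex.norm_real, norm_pow, norm_pow, Real.norm_eq_abs, abs_inv]
      have h1 : |M| = M := abs_of_pos (by linarith)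
      rw [h1]
      have h2 : M⁻¹ ≤ 1 := inv_le_one_of_one_le₀ hM.le
      have h3 : 0 ≤ M⁻¹ := inv_nonneg.mpr (by linarith)
      exact pow_le_one₀ (by positivity) (pow_le_one₀ h3 h2))

theorem W_apply (M : ℝ) (hM : 1 < M) (k : ℕ) : W M hM k = (((M⁻¹ ^ 2) ^ k : ℝ) : ℂ) := rfl

/-- right shift -/
def shift : A →L[ℝ] A :=
  LinearMap.mkContinuous
    { toFun := fun u => BoundedContinuousFunction.ofNormedAddCommGroupDiscrete
        (fun k => if k = 0 then 0 else u (k - 1)) ‖u‖ (by
          intro k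
          by_cases h : k = 0
          · simp [h]
          · simp only [h, if_false]; exact u.norm_coe_le_norm _)
      map_add' := by
        intro u v
        ext k
        by_cases h : k = 0 <;> simp [h]
      map_smul' := by
        intro c u
        ext k
        by_cases h : k = 0 <;> simp [h] } 1 (by
    intro u
    rw [one_mul]
    refine (BoundedContinuousFunction.norm_le (norm_nonneg _)).mpr ?_
    intro k
    by_cases h : k = 0
    · simp [h]
    · simp only [LinearMap.coe_mk, AddHom.coe_mk,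
        BoundedContinuousFunction.coe_ofNormedAddCommGroupDiscrete, h, if_false]
      exact u.norm_coe_le_norm _)

theorem shift_zero (u : A) : shift u 0 = 0 := rfl

theorem shift_succ (u : A) (k : ℕ) : shift u (k + 1) = u k := rfl

theorem norm_shift_le : ‖shift‖ ≤ 1 := LinearMap.mkContinuous_norm_le _ zero_le_one _

/-- first coordinate embedding -/
def e0 : ℂ →L[ℝ] A :=
  LinearMap.mkContinuous
    { toFun := fun z => BoundedContinuousFunction.ofNormedAddCommGroupDiscrete
        (fun k => if k = 0 then z else 0) ‖z‖ (by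
          intro k
          by_cases h : k = 0 <;> simp [h])
      map_add' := by
        intro u v
        ext k
        by_cases h : k = 0 <;> simp [h]
      map_smul' := by
        intro c u
        ext k
        by_cases h : k = 0 <;> simp [h] } 1 (by
    intro u
    rw [one_mul]
    refine (BoundedContinuousFunction.norm_le (norm_nonneg _)).mpr ?_
    intro k
    by_cases h : k = 0 <;> simp [h])

theorem e0_zero (z : ℂ) : e0 z 0 = z := rfl

theorem e0_succ (z : ℂ) (k : ℕ) : e0 z (k + 1) = 0 := rfl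

variable (κ M : ℝ) (hM : 1 < M)

/-- pointwise: |1+v|^2 - 1 -/
def sg (v : ℂ) : ℂ := v + star v + v * star v

/-- pointwise nonlinearity -/
def N (v : ℂ) : ℂ := (1 + v) * (Complex.exp (Complex.I * κ * (sg v) ^ 2) - 1)

def tau (u : A) : A := u + star u + W M hM * (u * star u)

def cK : A := BoundedContinuousFunction.const ℕ (Complex.I * κ)

def MM (u : A) : A :=
  (tau M hM u * tau M hM u) * ((1 + W M hM * u) * cK κ *
    EE A (W M hM * W M hM * (cK κ * (tau M hM u * tau M hM u))))

theorem W_real (k : ℕ) : star (W M hM k) = W M hM k := by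
  rw [W_apply]; simp

theorem sg_W (u : A) (k : ℕ) : sg (W M hM k * u k) = W M hM k * (tau M hM u) k := by
  unfold sg tau
  simp only [BoundedContinuousFunction.coe_add, BoundedContinuousFunction.coe_mul, Pi.add_apply,
    Pi.mul_apply, BoundedContinuousFunction.star_apply, star_mul', W_real]
  ring

theorem MM_apply (u : A) (k : ℕ) :
    (W M hM k) ^ 2 * (MM κ M hM u) k = N κ (W M hM k * u k) := by
  unfold N
  rw [sg_W]
  set w := W M hM k with hw
  set t := (tau M hM u) k with ht
  have h1 : (MM κ M hM u) k = (t * t) * ((1 + w * u k) * (Complex.I * κ) *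
      EE ℂ (w * w * ((Complex.I * κ) * (t * t)))) := by
    unfold MM
    simp only [BoundedContinuousFunction.coe_mul, Pi.mul_apply, EE_apply]
    rfl
  rw [h1]
  have h2 := EE_mul (w * w * ((Complex.I * κ) * (t * t)))
  have h3 : Complex.I * κ * (w * t) ^ 2 = w * w * ((Complex.I * κ) * (t * t)) := by ring
  rw [h3, ← h2]
  ring

theorem tau_analytic (u : A) : AnalyticAt ℝ (tau M hM) u := by
  unfold tau
  have h1 : AnalyticAt ℝ (fun u : A => star u) u := (starL' ℝ : A ≃L[ℝ] A).analyticAt u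
  exact (analyticAt_id.add h1).add (analyticAt_const.mul (analyticAt_id.mul h1))

theorem MM_analytic (u : A) : AnalyticAt ℝ (MM κ M hM) u := by
  unfold MM
  have h1 := tau_analytic M hM u
  refine (h1.mul h1).mul (((analyticAt_const.add (analyticAt_const.mul analyticAt_id)).mul
    analyticAt_const).mul ?_)
  refine (EE_analytic A _).comp ?_
  exact analyticAt_const.mul (analyticAt_const.mul (h1.mul h1))

theorem tau_zero : tau M hM 0 = 0 := by
  unfold tau; simp

theorem MM_zero : MM κ M hM 0 = 0 := by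
  unfold MM; rw [tau_zero]; simp

theorem MM_deriv : HasFDerivAt (MM κ M hM) (0 : A →L[ℝ] A) 0 := by
  have h1 := (tau_analytic M hM 0).differentiableAt.hasFDerivAt
  have h2 : AnalyticAt ℝ (fun u : A => (1 + W M hM * u) * cK κ *
    EE A (W M hM * W M hM * (cK κ * (tau M hM u * tau M hM u)))) 0 := by
    have h1 := tau_analytic M hM 0
    refine (((analyticAt_const.add (analyticAt_const.mul analyticAt_id)).mul
      analyticAt_const).mul ?_)
    refine (EE_analytic A _).comp ?_
    exact analyticAt_const.mul (analyticAt_const.mul (h1.mul h1))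
  have h3 := h2.differentiableAt.hasFDerivAt
  have h4 := (h1.mul' h1).mul' h3
  refine h4.congr_fderiv ?_
  have h5 : (tau M hM * tau M hM) 0 = 0 := by
    rw [Pi.mul_apply, tau_zero, mul_zero]
  rw [h5, tau_zero]
  simp

/-- The map whose local inverse produces the orbits. -/
def FF (u : A) : A := u - (M⁻¹ : ℝ) • shift (u + W M hM * MM κ M hM u)

theorem FF_analytic (u : A) : AnalyticAt ℝ (FF κ M hM) u := by
  unfold FF
  refine analyticAt_id.sub ?_
  have h : AnalyticAt ℝ (fun u : A => u + W M hM * MM κ M hM u) u :=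
    analyticAt_id.add (analyticAt_const.mul (MM_analytic κ M hM u))
  exact (((M⁻¹ : ℝ) • shift).analyticAt _).comp h

theorem FF_zero : FF κ M hM 0 = 0 := by
  unfold FF; rw [MM_zero]; simp

theorem FF_deriv : HasFDerivAt (FF κ M hM)
    (ContinuousLinearMap.id ℝ A - (M⁻¹ : ℝ) • shift) 0 := by
  have h1 : HasFDerivAt (fun u : A => u + W M hM * MM κ M hM u) (ContinuousLinearMap.id ℝ A) 0 := by
    have h2 := (hasFDerivAt_id (𝕜 := ℝ) (0 : A)).add
      ((hasFDerivAt_const (W M hM) (0 : A)).mul' (MM_deriv κ M hM))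
    refine h2.congr_fderiv ?_
    rw [MM_zero]
    simp
  have h3 := (((M⁻¹ : ℝ) • shift).hasFDerivAt (x := (0 : A) + W M hM * MM κ M hM 0)).comp 0 h1
  exact (hasFDerivAt_id (𝕜 := ℝ) (0 : A)).sub h3

theorem isUnit_deriv (hM : 1 < M) :
    IsUnit ((1 : A →L[ℝ] A) - (M⁻¹ : ℝ) • shift) := by
  have key : ‖(M⁻¹ : ℝ) • shift‖ < 1 := ?_
  · exact isUnit_one_sub_of_norm_lt_one (R := A →L[ℝ] A) key
  rw [norm_smul, norm_inv, Real.norm_eq_abs, abs_of_pos (by linarith)]
  have h1 := norm_shift_le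
  have h2 : M⁻¹ < 1 := inv_lt_one_of_one_lt₀ hM
  have h3 : 0 ≤ M⁻¹ := inv_nonneg.mpr (by linarith)
  calc M⁻¹ * ‖shift‖ ≤ M⁻¹ * 1 := by gcongr
    _ < 1 := by linarith

/-- the derivative of `FF` at zero as an equivalence -/
def DD : A ≃L[ℝ] A := ContinuousLinearEquiv.ofUnit (isUnit_deriv M hM).unit

theorem FF_deriv' : HasFDerivAt (FF κ M hM) (DD M hM : A →L[ℝ] A) 0 := by
  refine (FF_deriv κ M hM).congr_fderiv ?_
  rfl

theorem FF_contDiff : ContDiffAt ℝ ⊤ (FF κ M hM) 0 := (FF_analytic κ M hM 0).contDiffAt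

/-- local inverse -/
def ee : OpenPartialHomeomorph A A :=
  (FF_contDiff κ M hM).toOpenPartialHomeomorph (FF κ M hM) (FF_deriv' κ M hM) (by simp)

theorem ee_coe : (ee κ M hM : A → A) = FF κ M hM := rfl

theorem ee_target : (ee κ M hM).target ∈ 𝓝 (0 : A) := by
  apply (ee κ M hM).open_target.mem_nhds
  have h := (FF_contDiff κ M hM).image_mem_toOpenPartialHomeomorph_target
    (FF_deriv' κ M hM) (by simp)
  rw [FF_zero] at h
  exact h

theorem ee_symm_zero : (ee κ M hM).symm 0 = 0 := by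
  have h := (FF_contDiff κ M hM).mem_toOpenPartialHomeomorph_source
    (FF_deriv' κ M hM) (by simp)
  have h2 := (ee κ M hM).left_inv h
  rw [ee_coe, FF_zero] at h2
  exact h2

theorem ee_symm_analytic : AnalyticAt ℝ (ee κ M hM).symm 0 := by
  have h := (FF_contDiff κ M hM).to_localInverse (FF_deriv' κ M hM) (by simp)
  rw [FF_zero] at h
  exact h.analyticAt

/-- orbit with initial point `ζ` -/
def uu (ζ : ℂ) : A := (ee κ M hM).symm (e0 ζ)

theorem uu_zero : uu κ M hM 0 = 0 := by
  unfold uu; rw [map_zero, ee_symm_zero]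

theorem uu_analytic : AnalyticAt ℝ (uu κ M hM) 0 := by
  unfold uu
  have h := ee_symm_analytic κ M hM
  have h2 : AnalyticAt ℝ (e0 : ℂ → A) 0 := e0.analyticAt 0
  refine AnalyticAt.fun_comp ?_ h2
  rw [map_zero]
  exact h

theorem uu_spec : ∀ᶠ ζ in 𝓝 (0 : ℂ), FF κ M hM (uu κ M hM ζ) = e0 ζ := by
  have h1 : Tendsto (e0 : ℂ → A) (𝓝 0) (𝓝 0) := by
    have := e0.continuous.tendsto 0
    rwa [map_zero] at this
  filter_upwards [h1.eventually (ee_target κ M hM)] with ζ hζ
  exact (ee κ M hM).right_inv hζ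

/-- pointwise map -/
def G (v : ℂ) : ℂ := ((M ^ 3 : ℝ) : ℂ)⁻¹ * (v + N κ v)

theorem orbit (ζ : ℂ) (h : FF κ M hM (uu κ M hM ζ) = e0 ζ) (k : ℕ) :
    (G κ M)^[k] ζ = W M hM k * uu κ M hM ζ k := by
  have hM0 : (M : ℂ) ≠ 0 := by
    norm_cast; linarith
  induction k with
  | zero =>
    have h0 := congrArg (fun a : A => a 0) h
    simp only [FF, BoundedContinuousFunction.coe_sub, BoundedContinuousFunction.coe_smul,
      Pi.sub_apply, e0_zero, shift_zero, smul_zero, sub_zero] at h0
    rw [Function.iterate_zero, id, W_apply, h0]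
    simp
  | succ k ih =>
    have h0 := congrArg (fun a : A => a (k + 1)) h
    simp only [FF, BoundedContinuousFunction.coe_sub, BoundedContinuousFunction.coe_smul,
      Pi.sub_apply, e0_succ, shift_succ, BoundedContinuousFunction.coe_add,
      BoundedContinuousFunction.coe_mul, Pi.add_apply, Pi.mul_apply] at h0
    rw [sub_eq_zero] at h0
    rw [Function.iterate_succ_apply', ih, h0]
    unfold G
    rw [← MM_apply]
    have hW : W M hM (k + 1) = (M : ℂ)⁻¹ ^ 2 * W M hM k := by
      rw [W_apply, W_apply, pow_succ]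
      push_cast
      ring
    rw [hW, Complex.real_smul]
    push_cast
    field_simp

/-- the summation functional -/
def LL (_hM : 1 < M) : A →L[ℝ] ℂ := ∑' k : ℕ, (M⁻¹ ^ k : ℝ) • BoundedContinuousFunction.evalCLM ℝ k

theorem summable_geo (hM : 1 < M) : Summable (fun k : ℕ => (M⁻¹ : ℝ) ^ k) :=
  summable_geometric_of_lt_one (inv_nonneg.mpr (by linarith)) (inv_lt_one_of_one_lt₀ hM)

theorem LL_hasSum (a : A) : HasSum (fun k : ℕ => ((M⁻¹ ^ k : ℝ) : ℂ) * a k) (LL M hM a) := by
  have h1 : Summable (fun k : ℕ => (M⁻¹ ^ k : ℝ) •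
      (BoundedContinuousFunction.evalCLM ℝ k : A →L[ℝ] ℂ)) := by
    refine Summable.of_norm_bounded (summable_geo M hM) (fun k => ?_)
    rw [norm_smul, norm_pow, Real.norm_eq_abs, abs_of_pos (inv_pos.mpr (by linarith))]
    have h2 : ‖(BoundedContinuousFunction.evalCLM ℝ k : A →L[ℝ] ℂ)‖ ≤ 1 := by
      refine ContinuousLinearMap.opNorm_le_bound _ zero_le_one (fun u => ?_)
      rw [one_mul]
      exact u.norm_coe_le_norm k
    have h3 : 0 ≤ M⁻¹ ^ k := pow_nonneg (inv_nonneg.mpr (by linarith)) k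
    nlinarith
  have h2 := h1.hasSum.mapL (ContinuousLinearMap.apply ℝ ℂ a)
  have h3 : (fun k : ℕ => ((M⁻¹ ^ k : ℝ) : ℂ) * a k) = fun k : ℕ =>
      (ContinuousLinearMap.apply ℝ ℂ a) ((M⁻¹ ^ k : ℝ) •
        (BoundedContinuousFunction.evalCLM ℝ k : A →L[ℝ] ℂ)) := by
    funext k
    simp
  rw [h3]
  exact h2

/-- local linearising map -/
def hloc (ζ : ℂ) : ℂ := ζ + LL M hM (MM κ M hM (uu κ M hM ζ))

theorem hloc_analytic : AnalyticAt ℝ (hloc κ M hM) 0 := by
  unfold hloc
  refine analyticAt_id.add ?_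
  exact ((LL M hM).analyticAt _).comp ((MM_analytic κ M hM _).comp (uu_analytic κ M hM))

theorem hloc_zero : hloc κ M hM 0 = 0 := by
  unfold hloc; rw [uu_zero, MM_zero]; simp

theorem hloc_deriv : HasFDerivAt (hloc κ M hM) (ContinuousLinearMap.id ℝ ℂ) 0 := by
  have h1 := (uu_analytic κ M hM).differentiableAt.hasFDerivAt
  have h2 : HasFDerivAt (MM κ M hM) (0 : A →L[ℝ] A) (uu κ M hM 0) := by
    rw [uu_zero]; exact MM_deriv κ M hM
  have h3 := h2.comp (0 : ℂ) h1
  have h4 := ((LL M hM).hasFDerivAt (x := MM κ M hM (uu κ M hM 0))).comp (0 : ℂ) h3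
  have h5 := (hasFDerivAt_id (𝕜 := ℝ) (0 : ℂ)).add h4
  refine h5.congr_fderiv ?_
  simp

theorem hloc_tendsto : ∀ᶠ ζ in 𝓝 (0 : ℂ),
    Tendsto (fun n : ℕ => ((M ^ 3 : ℝ) : ℂ) ^ n * (G κ M)^[n] ζ) atTop (𝓝 (hloc κ M hM ζ)) := by
  filter_upwards [uu_spec κ M hM] with ζ hζ
  have hM0 : (M : ℂ) ≠ 0 := by
    norm_cast; linarith
  have h1 : ∀ n : ℕ, ((M ^ 3 : ℝ) : ℂ) ^ n * (G κ M)^[n] ζ =
      ζ + ∑ k ∈ Finset.range n, ((M⁻¹ ^ k : ℝ) : ℂ) * (MM κ M hM (uu κ M hM ζ)) k := by
    intro n
    induction n with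
    | zero => simp
    | succ n ih =>
      rw [Finset.sum_range_succ, ← add_assoc, ← ih, Function.iterate_succ_apply']
      have h2 : N κ ((G κ M)^[n] ζ) = (W M hM n) ^ 2 * (MM κ M hM (uu κ M hM ζ)) n := by
        rw [orbit κ M hM ζ hζ n, MM_apply]
      rw [G, h2, W_apply]
      push_cast
      have e1 : ((M : ℂ) ^ 3) ^ (n + 1) * ((M : ℂ) ^ 3)⁻¹ = ((M : ℂ) ^ 3) ^ n := by
        rw [pow_succ]; field_simp
      have e2 : ((M : ℂ) ^ 3) ^ n * ((((M : ℂ)⁻¹) ^ 2) ^ n) ^ 2 = ((M : ℂ)⁻¹) ^ n := by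
        have e3 : ((((M : ℂ)⁻¹) ^ 2) ^ n) ^ 2 = ((((M : ℂ)⁻¹) ^ 2) ^ 2) ^ n :=
          pow_right_comm _ n 2
        rw [e3, ← mul_pow]
        congr 1
        field_simp
      rw [← mul_assoc, e1, mul_add, ← mul_assoc, e2]
  simp only [h1]
  unfold hloc
  exact tendsto_const_nhds.add (LL_hasSum M hM _).tendsto_sum_nat

end

end Pool.Agent.Helper11.PlaneEuler.Lin
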