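import Pool.Agent.Helper11.PlaneEuler.LinA

set_option autoImplicit false

open Filter Topology

namespace Pool.Agent.Helper11.PlaneEuler.Lin

noncomputable section

/-- The twist of the plane with profile `φ`: the circle of radius `r` is rotated by the angle
`φ (r ^ 2)`. -/
def twist (φ : C(ℝ, ℝ)) : ℂ ≃ₜ ℂ where
  toFun z := z * Complex.exp (Complex.I * (φ (Complex.normSq z) : ℂ))
  invFun z := z * Complex.exp (Complex.I * (-(φ (Complex.normSq z)) : ℂ))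
  left_inv z := by
    have h : ‖Complex.exp (Complex.I * (φ (Complex.normSq z) : ℂ))‖ = 1 := by
      rw [mul_comm]; exact Complex.norm_exp_ofReal_mul_I _
    have h2 : Complex.normSq (z * Complex.exp (Complex.I * (φ (Complex.normSq z) : ℂ))) =
        Complex.normSq z := by
      rw [map_mul, Complex.normSq_eq_norm_sq (Complex.exp _), h]; simp
    simp only [h2]
    rw [mul_assoc, ← Complex.exp_add]
    simp
  right_inv z := by
    have h : ‖Complex.exp (Complex.I * (-(φ (Complex.normSq z)) : ℂ))‖ = 1 := by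
      rw [mul_comm, ← Complex.ofReal_neg]; exact Complex.norm_exp_ofReal_mul_I _
    have h2 : Complex.normSq (z * Complex.exp (Complex.I * (-(φ (Complex.normSq z)) : ℂ))) =
        Complex.normSq z := by
      rw [map_mul, Complex.normSq_eq_norm_sq (Complex.exp _), h]; simp
    simp only [h2]
    rw [mul_assoc, ← Complex.exp_add]
    simp
  continuous_toFun := by
    have := φ.continuous
    have h2 := Complex.continuous_normSq
    fun_prop
  continuous_invFun := by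
    have := φ.continuous
    have h2 := Complex.continuous_normSq
    fun_prop

theorem twist_apply (φ : C(ℝ, ℝ)) (z : ℂ) :
    twist φ z = z * Complex.exp (Complex.I * (φ (Complex.normSq z) : ℂ)) := rfl

theorem twist_symm_apply (φ : C(ℝ, ℝ)) (z : ℂ) :
    (twist φ).symm z = z * Complex.exp (Complex.I * (-(φ (Complex.normSq z)) : ℂ)) := rfl

theorem norm_twist (φ : C(ℝ, ℝ)) (z : ℂ) : ‖twist φ z‖ = ‖z‖ := by
  rw [twist_apply, norm_mul]
  have h : ‖Complex.exp (Complex.I * (φ (Complex.normSq z) : ℂ))‖ = 1 := by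
    rw [mul_comm]; exact Complex.norm_exp_ofReal_mul_I _
  rw [h, mul_one]

/-- The dilation with centre `c` and ratio `r`. -/
def dil (c : ℂ) (r : ℝ) (hr : r ≠ 0) : ℂ ≃ₜ ℂ where
  toFun z := c + (r : ℂ) * (z - c)
  invFun z := c + ((r : ℂ))⁻¹ * (z - c)
  left_inv z := by
    have : (r : ℂ) ≠ 0 := by exact_mod_cast hr
    field_simp
    ring
  right_inv z := by
    have : (r : ℂ) ≠ 0 := by exact_mod_cast hr
    field_simp
    ring
  continuous_toFun := by fun_prop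
  continuous_invFun := by fun_prop

theorem dil_apply (c : ℂ) (r : ℝ) (hr : r ≠ 0) (z : ℂ) :
    dil c r hr z = c + (r : ℂ) * (z - c) := rfl

theorem dil_symm_apply (c : ℂ) (r : ℝ) (hr : r ≠ 0) (z : ℂ) :
    (dil c r hr).symm z = c + ((r : ℂ))⁻¹ * (z - c) := rfl

/-- profile of the twist fixing the unit circle pointwise and tangent to the identity there -/
def phiB (κ : ℝ) : C(ℝ, ℝ) := ⟨fun s => κ * (s - 1) ^ 2, by fun_prop⟩

/-- real analytic in both directions -/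
def BiAnalytic (f : ℂ ≃ₜ ℂ) : Prop :=
  AnalyticOnNhd ℝ (f : ℂ → ℂ) Set.univ ∧ AnalyticOnNhd ℝ (f.symm : ℂ → ℂ) Set.univ

theorem conj_analytic (z : ℂ) : AnalyticAt ℝ (fun z : ℂ => star z) z :=
  (starL' ℝ : ℂ ≃L[ℝ] ℂ).analyticAt z

theorem normSq_analytic (z : ℂ) : AnalyticAt ℝ (fun z : ℂ => ((Complex.normSq z : ℝ) : ℂ)) z := by
  have h : (fun z : ℂ => ((Complex.normSq z : ℝ) : ℂ)) = fun z => z * star z := by
    funext z
    exact (Complex.mul_conj z).symm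
  rw [h]
  exact analyticAt_id.mul (conj_analytic z)

theorem cexp_analytic (z : ℂ) : AnalyticAt ℝ Complex.exp z :=
  (Complex.differentiable_exp.analyticAt z).restrictScalars

/-- A twist whose profile is given by a polynomial expression is analytic. -/
theorem twist_analytic (φ : C(ℝ, ℝ)) (P : ℂ → ℂ) (hP : ∀ z, AnalyticAt ℝ P z)
    (h : ∀ s : ℝ, ((φ s : ℝ) : ℂ) = P s) : BiAnalytic (twist φ) := by
  constructor
  · intro z _
    have h1 : (twist φ : ℂ → ℂ) = fun z => z * Complex.exp (Complex.I * P (Complex.normSq z)) := by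
      funext z; rw [twist_apply, h]
    rw [h1]
    refine analyticAt_id.mul ((cexp_analytic _).comp ?_)
    exact analyticAt_const.mul ((hP _).comp (normSq_analytic z))
  · intro z _
    have h1 : ((twist φ).symm : ℂ → ℂ) =
        fun z => z * Complex.exp (Complex.I * (-P (Complex.normSq z))) := by
      funext z; rw [twist_symm_apply, h]
    rw [h1]
    refine analyticAt_id.mul ((cexp_analytic _).comp ?_)
    exact analyticAt_const.mul ((hP _).comp (normSq_analytic z)).neg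

theorem dil_analytic (c : ℂ) (r : ℝ) (hr : r ≠ 0) : BiAnalytic (dil c r hr) := by
  constructor
  · intro z _
    exact analyticAt_const.add (analyticAt_const.mul (analyticAt_id.sub analyticAt_const))
  · intro z _
    exact analyticAt_const.add (analyticAt_const.mul (analyticAt_id.sub analyticAt_const))

theorem phiB_twist_analytic (κ : ℝ) : BiAnalytic (twist (phiB κ)) := by
  apply twist_analytic (phiB κ) (fun s => (κ : ℂ) * (s - 1) ^ 2)
  · intro z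
    exact analyticAt_const.mul ((analyticAt_id.sub analyticAt_const).pow 2)
  · intro s
    simp [phiB]

theorem BiAnalytic.mul {f g : ℂ ≃ₜ ℂ} (hf : BiAnalytic f) (hg : BiAnalytic g) :
    BiAnalytic (f * g) := by
  constructor
  · intro z _
    exact (hf.1 _ trivial).comp (hg.1 z trivial)
  · intro z _
    exact (hg.2 _ trivial).comp (hf.2 z trivial)

theorem BiAnalytic.inv {f : ℂ ≃ₜ ℂ} (hf : BiAnalytic f) : BiAnalytic f⁻¹ := ⟨hf.2, hf.1⟩

theorem BiAnalytic.one : BiAnalytic (1 : ℂ ≃ₜ ℂ) :=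
  ⟨fun _ _ => analyticAt_id, fun _ _ => analyticAt_id⟩

/-- translation by one -/
def tr : ℂ ≃ₜ ℂ := Homeomorph.addLeft 1

theorem tr_analytic : BiAnalytic tr := by
  constructor
  · intro z _
    exact analyticAt_const.add analyticAt_id
  · intro z _
    have : (tr.symm : ℂ → ℂ) = fun z => -1 + z := rfl
    rw [this]
    exact analyticAt_const.add analyticAt_id

/-- the contraction, as a homeomorphism fixing `0` -/
def GH (κ μ : ℝ) (hμ : μ ≠ 0) : ℂ ≃ₜ ℂ :=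
  tr⁻¹ * ((dil 1 μ hμ)⁻¹ * twist (phiB κ)) * tr

theorem GH_analytic (κ μ : ℝ) (hμ : μ ≠ 0) : BiAnalytic (GH κ μ hμ) :=
  (tr_analytic.inv.mul ((dil_analytic 1 μ hμ).inv.mul (phiB_twist_analytic κ))).mul tr_analytic

theorem sg_eq (v : ℂ) : sg v = ((Complex.normSq (1 + v) - 1 : ℝ) : ℂ) := by
  have h : ((Complex.normSq (1 + v) : ℝ) : ℂ) = (1 + v) * (starRingEnd ℂ) (1 + v) :=
    (Complex.mul_conj (1 + v)).symm
  push_cast
  rw [h, map_add, map_one]
  unfold sg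
  have : star v = (starRingEnd ℂ) v := rfl
  rw [this]
  ring

theorem GH_apply (κ M : ℝ) (hμ : M ^ 3 ≠ 0) (v : ℂ) : GH κ (M ^ 3) hμ v = G κ M v := by
  have h : GH κ (M ^ 3) hμ v = -1 + (1 + (((M ^ 3 : ℝ) : ℂ))⁻¹ * (twist (phiB κ) (1 + v) - 1)) := rfl
  rw [h, twist_apply]
  unfold G N
  rw [sg_eq]
  simp only [phiB, ContinuousMap.coe_mk]
  push_cast
  ring_nf

theorem norm_exp_sub_one_le (x : ℝ) : ‖Complex.exp (Complex.I * x) - 1‖ ≤ |x| := by
  have h := Real.norm_exp_I_mul_ofReal_sub_one_le (x := x)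
  simpa using h

theorem norm_vN_le (κ : ℝ) (v : ℂ) : ‖v + N κ v‖ ≤ ‖v‖ + 2 := by
  have h : v + N κ v = (1 + v) * Complex.exp (Complex.I * κ * (sg v) ^ 2) - 1 := by
    unfold N; ring
  have h2 : ‖Complex.exp (Complex.I * κ * (sg v) ^ 2)‖ = 1 := by
    rw [sg_eq]
    have : Complex.I * (κ : ℂ) * (((Complex.normSq (1 + v) - 1 : ℝ) : ℂ)) ^ 2 =
        ((κ * (Complex.normSq (1 + v) - 1) ^ 2 : ℝ) : ℂ) * Complex.I := by
      push_cast; ring
    rw [this]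
    exact Complex.norm_exp_ofReal_mul_I _
  rw [h]
  calc ‖(1 + v) * Complex.exp (Complex.I * κ * (sg v) ^ 2) - 1‖
      ≤ ‖(1 + v) * Complex.exp (Complex.I * κ * (sg v) ^ 2)‖ + ‖(1 : ℂ)‖ := norm_sub_le _ _
    _ = ‖1 + v‖ + 1 := by rw [norm_mul, h2]; simp
    _ ≤ (‖(1 : ℂ)‖ + ‖v‖) + 1 := by gcongr; exact norm_add_le _ _
    _ = ‖v‖ + 2 := by rw [norm_one]; ring

theorem norm_vN_le' (κ : ℝ) (v : ℂ) (hv : ‖v‖ ≤ 1) : ‖v + N κ v‖ ≤ (1 + 18 * |κ|) * ‖v‖ := by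
  have h1 : ‖sg v‖ ≤ 3 * ‖v‖ := by
    unfold sg
    calc ‖v + star v + v * star v‖ ≤ ‖v‖ + ‖star v‖ + ‖v * star v‖ := norm_add₃_le
      _ = ‖v‖ + ‖v‖ + ‖v‖ * ‖v‖ := by rw [norm_mul, norm_star]
      _ ≤ ‖v‖ + ‖v‖ + 1 * ‖v‖ := by gcongr
      _ = 3 * ‖v‖ := by ring
  have h2 : ‖Complex.exp (Complex.I * κ * (sg v) ^ 2) - 1‖ ≤ |κ| * (9 * ‖v‖) := by
    have h3 : Complex.I * (κ : ℂ) * (sg v) ^ 2 =
        Complex.I * ((κ * (Complex.normSq (1 + v) - 1) ^ 2 : ℝ) : ℂ) := by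
      rw [sg_eq]; push_cast; ring
    rw [h3]
    refine (norm_exp_sub_one_le _).trans ?_
    rw [abs_mul, abs_pow]
    have h4 : |Complex.normSq (1 + v) - 1| = ‖sg v‖ := by
      rw [sg_eq, Complex.norm_real, Real.norm_eq_abs]
    rw [h4]
    have h5 : ‖sg v‖ ^ 2 ≤ 9 * ‖v‖ := by
      calc ‖sg v‖ ^ 2 ≤ (3 * ‖v‖) ^ 2 := by gcongr
        _ = 9 * (‖v‖ * ‖v‖) := by ring
        _ ≤ 9 * (‖v‖ * 1) := by gcongr
        _ = 9 * ‖v‖ := by ring
    gcongr
  have h3 : ‖N κ v‖ ≤ 2 * (|κ| * (9 * ‖v‖)) := by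
    unfold N
    rw [norm_mul]
    have : ‖1 + v‖ ≤ 2 := by
      calc ‖1 + v‖ ≤ ‖(1 : ℂ)‖ + ‖v‖ := norm_add_le _ _
        _ ≤ 2 := by rw [norm_one]; linarith
    gcongr
  calc ‖v + N κ v‖ ≤ ‖v‖ + ‖N κ v‖ := norm_add_le _ _
    _ ≤ ‖v‖ + 2 * (|κ| * (9 * ‖v‖)) := by gcongr
    _ = (1 + 18 * |κ|) * ‖v‖ := by ring

theorem G_contr (κ M : ℝ) (h1 : 4 ≤ M ^ 3) (h2 : 2 * (1 + 18 * |κ|) ≤ M ^ 3) (v : ℂ) :
    ‖G κ M v‖ ≤ (3 / 4) * ‖v‖ := by
  unfold G
  have hpos : 0 < M ^ 3 := by linarith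
  rw [norm_mul, norm_inv, Complex.norm_real, Real.norm_eq_abs, abs_of_pos hpos]
  rw [inv_mul_le_iff₀ hpos]
  rcases le_total ‖v‖ 1 with hv | hv
  · have h3 := norm_vN_le' κ v hv
    have h4 : (1 + 18 * |κ|) * ‖v‖ ≤ (M ^ 3 / 2) * ‖v‖ := by
      have := norm_nonneg v
      nlinarith
    have := norm_nonneg v
    nlinarith
  · have h3 := norm_vN_le κ v
    nlinarith

theorem G_iter (κ M : ℝ) (h1 : 4 ≤ M ^ 3) (h2 : 2 * (1 + 18 * |κ|) ≤ M ^ 3) (v : ℂ) (n : ℕ) :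
    ‖(G κ M)^[n] v‖ ≤ (3 / 4) ^ n * ‖v‖ := by
  induction n with
  | zero => simp
  | succ n ih =>
    rw [Function.iterate_succ_apply']
    calc ‖G κ M ((G κ M)^[n] v)‖ ≤ (3 / 4) * ‖(G κ M)^[n] v‖ := G_contr κ M h1 h2 _
      _ ≤ (3 / 4) * ((3 / 4) ^ n * ‖v‖) := by gcongr
      _ = (3 / 4) ^ (n + 1) * ‖v‖ := by ring

theorem G_tendsto (κ M : ℝ) (h1 : 4 ≤ M ^ 3) (h2 : 2 * (1 + 18 * |κ|) ≤ M ^ 3) (v : ℂ) :
    Tendsto (fun n => (G κ M)^[n] v) atTop (𝓝 0) := by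
  rw [tendsto_zero_iff_norm_tendsto_zero]
  have h3 : Tendsto (fun n : ℕ => ((3 : ℝ) / 4) ^ n * ‖v‖) atTop (𝓝 0) := by
    have := (tendsto_pow_atTop_nhds_zero_of_lt_one (by norm_num : (0 : ℝ) ≤ 3 / 4)
      (by norm_num)).mul_const ‖v‖
    simpa using this
  exact squeeze_zero (fun n => norm_nonneg _) (G_iter κ M h1 h2 v) h3

section global

variable (κ M : ℝ) (hM : 1 < M) (h1 : 4 ≤ M ^ 3) (h2 : 2 * (1 + 18 * |κ|) ≤ M ^ 3)

/-- the global linearising map -/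
def H (v : ℂ) : ℂ := limUnder atTop (fun n : ℕ => ((M ^ 3 : ℝ) : ℂ) ^ n * (G κ M)^[n] v)

include hM h1 h2 in
theorem H_tendsto (v : ℂ) :
    Tendsto (fun n : ℕ => ((M ^ 3 : ℝ) : ℂ) ^ n * (G κ M)^[n] v) atTop (𝓝 (H κ M v)) := by
  apply tendsto_nhds_limUnder
  obtain ⟨m, hm⟩ := ((G_tendsto κ M h1 h2 v).eventually (hloc_tendsto κ M hM)).exists
  refine ⟨((M ^ 3 : ℝ) : ℂ) ^ m * hloc κ M hM ((G κ M)^[m] v), ?_⟩
  rw [← tendsto_add_atTop_iff_nat m]
  refine (hm.const_mul _).congr (fun n => ?_)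
  rw [← Function.iterate_add_apply, pow_add]
  ring

include hM h1 h2 in
theorem H_eq_hloc : ∀ᶠ v in 𝓝 (0 : ℂ), H κ M v = hloc κ M hM v := by
  filter_upwards [hloc_tendsto κ M hM] with v hv
  exact tendsto_nhds_unique (H_tendsto κ M hM h1 h2 v) hv

include hM h1 h2 in
theorem H_G (v : ℂ) : ((M ^ 3 : ℝ) : ℂ) * H κ M (G κ M v) = H κ M v := by
  have h3 := (H_tendsto κ M hM h1 h2 (G κ M v)).const_mul ((M ^ 3 : ℝ) : ℂ)
  have h4 := (tendsto_add_atTop_iff_nat 1).mpr (H_tendsto κ M hM h1 h2 v)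
  refine tendsto_nhds_unique h3 (h4.congr (fun n => ?_))
  rw [Function.iterate_add_apply, Function.iterate_one, pow_add]
  ring

include hM h1 h2 in
theorem H_iter (v : ℂ) (n : ℕ) :
    ((M ^ 3 : ℝ) : ℂ) ^ n * H κ M ((G κ M)^[n] v) = H κ M v := by
  induction n with
  | zero => simp
  | succ n ih =>
    rw [Function.iterate_succ_apply', pow_succ, mul_assoc, H_G κ M hM h1 h2, ih]

include hM h1 h2 in
theorem H_deriv : HasFDerivAt (H κ M) (ContinuousLinearMap.id ℝ ℂ) 0 :=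
  (hloc_deriv κ M hM).congr_of_eventuallyEq (H_eq_hloc κ M hM h1 h2)

include hM h1 h2 in
theorem H_analytic_zero : AnalyticAt ℝ (H κ M) 0 :=
  (hloc_analytic κ M hM).congr (by
    filter_upwards [H_eq_hloc κ M hM h1 h2] with v hv using hv.symm)

theorem G_analytic (hM0 : M ^ 3 ≠ 0) (v : ℂ) : AnalyticAt ℝ (G κ M) v := by
  have h : (GH κ (M ^ 3) hM0 : ℂ → ℂ) = G κ M := funext (GH_apply κ M hM0)
  rw [← h]
  exact (GH_analytic κ (M ^ 3) hM0).1 v trivial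

theorem G_iter_analytic (hM0 : M ^ 3 ≠ 0) (n : ℕ) (v : ℂ) : AnalyticAt ℝ ((G κ M)^[n]) v := by
  induction n with
  | zero => exact analyticAt_id
  | succ n ih =>
    rw [Function.iterate_succ']
    exact (G_analytic κ M hM0 _).comp ih

include hM h1 h2 in
theorem H_analytic (v : ℂ) : AnalyticAt ℝ (H κ M) v := by
  have hM0 : M ^ 3 ≠ 0 := by linarith
  obtain ⟨n, hn⟩ := ((G_tendsto κ M h1 h2 v).eventually
    (H_analytic_zero κ M hM h1 h2).eventually_analyticAt).exists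
  have h3 : H κ M = fun v => ((M ^ 3 : ℝ) : ℂ) ^ n * H κ M ((G κ M)^[n] v) := by
    funext v; exact (H_iter κ M hM h1 h2 v n).symm
  rw [h3]
  exact analyticAt_const.mul (hn.comp (G_iter_analytic κ M hM0 n v))

include hM h1 h2 in
theorem H_zero : H κ M 0 = 0 := by
  have h := (H_eq_hloc κ M hM h1 h2).self_of_nhds
  rw [h, hloc_zero]

include hM h1 h2 in
/-- local inverse of `H` at zero -/
theorem H_local_inverse : ∃ l : ℂ → ℂ, AnalyticAt ℝ l 0 ∧
    (∀ᶠ v in 𝓝 (0 : ℂ), l (H κ M v) = v) ∧ (∀ᶠ y in 𝓝 (0 : ℂ), H κ M (l y) = y) := by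
  have hc : ContDiffAt ℝ ⊤ (H κ M) 0 := (H_analytic_zero κ M hM h1 h2).contDiffAt
  have hd : HasFDerivAt (H κ M) ((ContinuousLinearEquiv.refl ℝ ℂ : ℂ ≃L[ℝ] ℂ) : ℂ →L[ℝ] ℂ) 0 :=
    H_deriv κ M hM h1 h2
  have h0 := H_zero κ M hM h1 h2
  refine ⟨(hc.toOpenPartialHomeomorph (H κ M) hd (by simp)).symm, ?_, ?_, ?_⟩
  · have h := hc.to_localInverse hd (by simp)
    rw [h0] at h
    exact h.analyticAt
  · have h := hc.mem_toOpenPartialHomeomorph_source hd (by simp)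
    filter_upwards [(hc.toOpenPartialHomeomorph (H κ M) hd (by simp)).open_source.mem_nhds h]
      with v hv
    exact (hc.toOpenPartialHomeomorph (H κ M) hd (by simp)).left_inv hv
  · have h := hc.image_mem_toOpenPartialHomeomorph_target hd (by simp)
    rw [h0] at h
    filter_upwards [(hc.toOpenPartialHomeomorph (H κ M) hd (by simp)).open_target.mem_nhds h]
      with v hv
    exact (hc.toOpenPartialHomeomorph (H κ M) hd (by simp)).right_inv hv

/-- inverse of `G` -/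
def Gi (hM0 : M ^ 3 ≠ 0) : ℂ → ℂ := (GH κ (M ^ 3) hM0).symm

theorem G_Gi (hM0 : M ^ 3 ≠ 0) (v : ℂ) : G κ M (Gi κ M hM0 v) = v := by
  rw [← GH_apply κ M hM0]
  exact (GH κ (M ^ 3) hM0).apply_symm_apply v

theorem Gi_G (hM0 : M ^ 3 ≠ 0) (v : ℂ) : Gi κ M hM0 (G κ M v) = v := by
  rw [← GH_apply κ M hM0]
  exact (GH κ (M ^ 3) hM0).symm_apply_apply v

theorem G_Gi_iter (hM0 : M ^ 3 ≠ 0) (n : ℕ) (v : ℂ) :
    (G κ M)^[n] ((Gi κ M hM0)^[n] v) = v :=
  Function.LeftInverse.iterate (G_Gi κ M hM0) n v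

theorem Gi_G_iter (hM0 : M ^ 3 ≠ 0) (n : ℕ) (v : ℂ) :
    (Gi κ M hM0)^[n] ((G κ M)^[n] v) = v :=
  Function.LeftInverse.iterate (Gi_G κ M hM0) n v

theorem Gi_iter_analytic (hM0 : M ^ 3 ≠ 0) (n : ℕ) (v : ℂ) :
    AnalyticAt ℝ ((Gi κ M hM0)^[n]) v := by
  induction n with
  | zero => exact analyticAt_id
  | succ n ih =>
    rw [Function.iterate_succ']
    exact ((GH_analytic κ (M ^ 3) hM0).2 _ trivial).comp ih

include hM h1 h2 in
theorem H_injective : Function.Injective (H κ M) := by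
  have hM0 : M ^ 3 ≠ 0 := by linarith
  have hM0' : ((M ^ 3 : ℝ) : ℂ) ≠ 0 := by exact_mod_cast hM0
  obtain ⟨l, -, hl, -⟩ := H_local_inverse κ M hM h1 h2
  intro v w hvw
  obtain ⟨n, hn1, hn2⟩ := (((G_tendsto κ M h1 h2 v).eventually hl).and
    ((G_tendsto κ M h1 h2 w).eventually hl)).exists
  have h3 : H κ M ((G κ M)^[n] v) = H κ M ((G κ M)^[n] w) := by
    have h4 := H_iter κ M hM h1 h2 v n
    have h5 := H_iter κ M hM h1 h2 w n
    rw [← hvw, ← h4] at h5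
    exact (mul_left_cancel₀ (pow_ne_zero n hM0') h5).symm
  have h4 : (G κ M)^[n] v = (G κ M)^[n] w := by
    rw [← hn1, ← hn2, h3]
  rw [← Gi_G_iter κ M hM0 n v, h4, Gi_G_iter κ M hM0 n w]

include hM h1 h2 in
/-- the inverse function is given near every point by an analytic expression -/
theorem H_inverse (y : ℂ) : ∃ k : ℂ → ℂ, AnalyticAt ℝ k y ∧ ∀ᶠ y' in 𝓝 y, H κ M (k y') = y' := by
  have hM0 : M ^ 3 ≠ 0 := by linarith
  have hM0' : ((M ^ 3 : ℝ) : ℂ) ≠ 0 := by exact_mod_cast hM0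
  obtain ⟨l, hla, -, hl⟩ := H_local_inverse κ M hM h1 h2
  have hlim : Tendsto (fun n : ℕ => (((M ^ 3 : ℝ) : ℂ)⁻¹) ^ n * y) atTop (𝓝 0) := by
    have h3 : Tendsto (fun n : ℕ => (((M ^ 3 : ℝ) : ℂ)⁻¹) ^ n) atTop (𝓝 0) := by
      apply tendsto_pow_atTop_nhds_zero_of_norm_lt_one
      rw [norm_inv, Complex.norm_real, Real.norm_eq_abs, abs_of_pos (by linarith)]
      exact inv_lt_one_of_one_lt₀ (by linarith)
    have := h3.mul_const y
    simpa using this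
  obtain ⟨n, hn1, hn2⟩ := ((hlim.eventually hla.eventually_analyticAt).and
    (hlim.eventually (eventually_eventually_nhds.mpr hl))).exists
  refine ⟨fun y' => (Gi κ M hM0)^[n] (l ((((M ^ 3 : ℝ) : ℂ)⁻¹) ^ n * y')), ?_, ?_⟩
  · have h3 : AnalyticAt ℝ (fun y' : ℂ => (((M ^ 3 : ℝ) : ℂ)⁻¹) ^ n * y') y :=
      analyticAt_const.mul analyticAt_id
    exact (Gi_iter_analytic κ M hM0 n _).comp (hn1.comp h3)
  · have h3 : Tendsto (fun y' : ℂ => (((M ^ 3 : ℝ) : ℂ)⁻¹) ^ n * y') (𝓝 y)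
        (𝓝 ((((M ^ 3 : ℝ) : ℂ)⁻¹) ^ n * y)) := tendsto_const_nhds.mul tendsto_id
    filter_upwards [h3.eventually hn2] with y' hy'
    rw [← H_iter κ M hM h1 h2 _ n, G_Gi_iter, hy', ← mul_assoc, ← mul_pow,
      mul_inv_cancel₀ hM0', one_pow, one_mul]

include hM h1 h2 in
theorem H_surjective : Function.Surjective (H κ M) := by
  intro y
  obtain ⟨k, -, hk⟩ := H_inverse κ M hM h1 h2 y
  exact ⟨k y, hk.self_of_nhds⟩

/-- inverse of `H` as a function -/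
def K : ℂ → ℂ := Function.invFun (H κ M)

include hM h1 h2 in
theorem K_H (v : ℂ) : K κ M (H κ M v) = v :=
  Function.leftInverse_invFun (H_injective κ M hM h1 h2) v

include hM h1 h2 in
theorem H_K (v : ℂ) : H κ M (K κ M v) = v :=
  Function.rightInverse_invFun (H_surjective κ M hM h1 h2) v

include hM h1 h2 in
theorem K_analytic (y : ℂ) : AnalyticAt ℝ (K κ M) y := by
  obtain ⟨k, hk1, hk2⟩ := H_inverse κ M hM h1 h2 y
  refine hk1.congr ?_
  filter_upwards [hk2] with y' hy'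
  apply H_injective κ M hM h1 h2
  rw [hy', H_K κ M hM h1 h2]

/-- The global analytic linearisation, as a homeomorphism of the plane. -/
def HH : ℂ ≃ₜ ℂ where
  toFun := H κ M
  invFun := K κ M
  left_inv := K_H κ M hM h1 h2
  right_inv := H_K κ M hM h1 h2
  continuous_toFun := continuous_iff_continuousAt.mpr
    (fun v => (H_analytic κ M hM h1 h2 v).continuousAt)
  continuous_invFun := continuous_iff_continuousAt.mpr
    (fun v => (K_analytic κ M hM h1 h2 v).continuousAt)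

/-- the linearisation centred at `1` -/
def bb : ℂ ≃ₜ ℂ := tr * HH κ M hM h1 h2 * tr⁻¹

theorem bb_analytic : BiAnalytic (bb κ M hM h1 h2) := by
  have h3 : BiAnalytic (HH κ M hM h1 h2) :=
    ⟨fun v _ => H_analytic κ M hM h1 h2 v, fun v _ => K_analytic κ M hM h1 h2 v⟩
  exact (tr_analytic.mul h3).mul tr_analytic.inv

theorem bb_one : bb κ M hM h1 h2 1 = 1 := by
  have h : bb κ M hM h1 h2 1 = 1 + H κ M (-1 + 1) := rfl
  rw [h]
  have h3 : (-1 + 1 : ℂ) = 0 := by ring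
  rw [h3, H_zero κ M hM h1 h2, add_zero]

theorem bb_deriv : HasStrictFDerivAt (bb κ M hM h1 h2 : ℂ → ℂ) (ContinuousLinearMap.id ℝ ℂ) 1 := by
  have h3 := ((bb_analytic κ M hM h1 h2).1 1 trivial).hasStrictFDerivAt
  have h4 : HasFDerivAt (bb κ M hM h1 h2 : ℂ → ℂ) (ContinuousLinearMap.id ℝ ℂ) 1 := by
    have h5 : (bb κ M hM h1 h2 : ℂ → ℂ) = fun z => 1 + H κ M (-1 + z) := rfl
    rw [h5]
    have h6 : HasFDerivAt (H κ M) (ContinuousLinearMap.id ℝ ℂ) (-1 + 1 : ℂ) := by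
      have : (-1 + 1 : ℂ) = 0 := by ring
      rw [this]; exact H_deriv κ M hM h1 h2
    have h7 : HasFDerivAt (fun z : ℂ => -1 + z) (ContinuousLinearMap.id ℝ ℂ) 1 :=
      (hasFDerivAt_id (𝕜 := ℝ) (1 : ℂ)).const_add (-1)
    exact (h6.comp (1 : ℂ) h7).const_add 1
  rwa [h4.fderiv] at h3

/-- the key relation: the twist is the commutator of the dilation and the inverse of `bb` -/
theorem key_relation (hM0 : M ^ 3 ≠ 0) :
    bb κ M hM h1 h2 * ((dil 1 (M ^ 3) hM0)⁻¹ * twist (phiB κ)) =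
      (dil 1 (M ^ 3) hM0)⁻¹ * bb κ M hM h1 h2 := by
  ext z
  have hM0' : ((M ^ 3 : ℝ) : ℂ) ≠ 0 := by exact_mod_cast hM0
  have e1 : (bb κ M hM h1 h2 * ((dil 1 (M ^ 3) hM0)⁻¹ * twist (phiB κ))) z =
      1 + H κ M (GH κ (M ^ 3) hM0 (-1 + z)) := by
    have : (GH κ (M ^ 3) hM0 (-1 + z)) = -1 + ((dil 1 (M ^ 3) hM0)⁻¹ * twist (phiB κ)) (1 + (-1 + z)) := rfl
    rw [this]
    have e : (1 + (-1 + z) : ℂ) = z := by ring
    rw [e]
    rfl
  have e2 : ((dil 1 (M ^ 3) hM0)⁻¹ * bb κ M hM h1 h2) z =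
      1 + ((M ^ 3 : ℝ) : ℂ)⁻¹ * ((1 + H κ M (-1 + z)) - 1) := rfl
  rw [e1, e2, GH_apply, ← H_G κ M hM h1 h2 (-1 + z)]
  field_simp
  ring

end global

end

end Pool.Agent.Helper11.PlaneEuler.Lin
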